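import Pool.Agent.SCC.Defs
import Pool.Agent.IST.CardB
import Pool.Agent.IST.Nfu

/-!
# Translation between the notions of the final statement and the internal library
-/

set_option synthInstance.maxSize 100000

namespace Pool.Agent.SCC

open Pool.Agent.BVM Pool.Agent.IST

section

variable {M : Type} [SetModel M]

theorem sub_iff' {x y : M} : SCC.Sub SetModel.E x y ↔ x ⊆ y := Iff.rfl

theorem upair_iff {z x y : M} : UPair SetModel.E z x y ↔ z = upair x y :=
  ⟨fun h => ext fun t => (h t).trans mem_upair.symm, fun h t => by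
    rw [h]; exact mem_upair⟩

theorem opair_iff {z x y : M} : OPair SetModel.E z x y ↔ z = op x y := by
  constructor
  · rintro ⟨a, b, ha, hb, hz⟩
    rw [upair_iff] at ha hb hz
    rw [hz, ha, hb]
    rfl
  · rintro rfl
    exact ⟨sing x, upair x y, upair_iff.2 rfl, upair_iff.2 rfl, upair_iff.2 rfl⟩

theorem rel_iff {f x y : M} : Rel SetModel.E f x y ↔ op x y ∈ f := by
  constructor
  · rintro ⟨z, hz, h⟩
    rw [opair_iff] at hz
    exact hz ▸ h
  · exact fun h => ⟨_, opair_iff.2 rfl, h⟩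

theorem funOn_iff {f d : M} : FunOn SetModel.E f d ↔ IsFun f ∧ dom f = d := by
  unfold FunOn
  simp only [opair_iff, rel_iff]
  constructor
  · rintro ⟨h1, h2⟩
    have hdom : ∀ x y, op x y ∈ f → x ∈ d := fun x y h => by
      obtain ⟨x', y', hx, e⟩ := h1 _ h
      rw [(op_inj.1 e).1]
      exact hx
    refine ⟨⟨fun p hp => ?_, fun x y y' h h' => ?_⟩, ?_⟩
    · obtain ⟨x, y, -, e⟩ := h1 p hp
      exact ⟨x, y, e⟩
    · obtain ⟨z, -, hz⟩ := h2 x (hdom x y h)
      rw [hz y h, hz y' h']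
    · apply ext
      intro x
      rw [mem_dom]
      constructor
      · rintro ⟨y, hy⟩
        exact hdom x y hy
      · intro hx
        obtain ⟨y, hy, -⟩ := h2 x hx
        exact ⟨y, hy⟩
  · rintro ⟨h, rfl⟩
    refine ⟨fun z hz => ?_, fun x hx => ?_⟩
    · obtain ⟨x, hx, e⟩ := h.mem_iff.1 hz
      exact ⟨x, _, hx, e⟩
    · exact ⟨ap f x, h.op_ap_mem hx, fun y hy => (h.ap_eq hy).symm⟩

theorem tran_iff {x : M} : Tran SetModel.E x ↔ IsTrans x :=
  ⟨fun h y hy z hz => h y z hy hz, fun h y z hy hz => h y hy z hz⟩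

theorem ordl_iff {x : M} : Ordl SetModel.E x ↔ IsOrd x :=
  and_congr tran_iff (forall_congr' fun _ => forall_congr' fun _ => tran_iff)

theorem limit_iff {x : M} : Limit SetModel.E x ↔ IsLim x := by
  constructor
  · rintro ⟨h1, ⟨y, hy⟩, h3⟩
    rw [ordl_iff] at h1
    refine ⟨h1, ne_empty_iff.2 ⟨y, hy⟩, fun β hβ => ?_⟩
    obtain ⟨z, hz, hβz⟩ := h3 β hβ
    exact (h1.mem hβ).sc.mem_of_sub_of_mem h1 ((h1.mem hz).sc_sub_iff.2 hβz) hz
  · rintro ⟨h1, h2, h3⟩
    exact ⟨ordl_iff.2 h1, ne_empty_iff.1 h2, fun y hy => ⟨sc y, h3 y hy, self_mem_sc y⟩⟩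

theorem omega_iff {w : M} : Omega SetModel.E w ↔ w = om := by
  unfold Omega
  simp only [limit_iff]
  constructor
  · rintro ⟨h1, h2⟩
    rcases h1.isOrd.cmp isOrd_om with h | h | h
    · exact absurd h1 ((mem_om.1 h).2 w (self_mem_sc w))
    · exact h
    · exact absurd isLim_om (h2 _ h)
  · rintro rfl
    exact ⟨isLim_om, fun x hx => (mem_om.1 hx).2 x (self_mem_sc x)⟩

theorem cardLE_iff {b a : M} : CardLE SetModel.E b a ↔ Leq b a := by
  unfold CardLE
  simp only [rel_iff]
  constructor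
  · rintro ⟨f, h1, h2⟩
    obtain ⟨g, hg, hg'⟩ := exists_choice_rel b a (fun y x => op x y ∈ f) h2
    refine ⟨g, hg, fun x hx y hy e => ?_⟩
    rw [hg.dom_eq] at hx hy
    have h3 := hg' x hx
    have h4 := hg' y hy
    rw [e] at h3
    exact h1 _ _ _ h4 h3
  · rintro ⟨g, hg, hi⟩
    refine ⟨inv g, fun x y y' h h' => ?_, fun y hy => ?_⟩
    · exact (hg.isFun.isFun_inv hi).2 _ _ _ h' h
    · exact ⟨ap g y, hg.ap_mem hy, op_mem_inv.2 (hg.isFun.op_ap_mem (hg.dom_eq ▸ hy))⟩

theorem cardl_iff {κ : M} : Cardl SetModel.E κ ↔ IsCard κ := by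
  unfold Cardl
  simp only [ordl_iff, cardLE_iff]
  constructor
  · rintro ⟨h1, h2⟩
    exact ⟨h1, fun α hα h => h2 α hα h.symm.leq⟩
  · intro h
    exact ⟨h.isOrd, fun α hα => h.not_leq hα⟩

theorem psub_iff {κ l p : M} (hκ : IsCard κ) : PSub SetModel.E κ l p ↔ p = pws κ l := by
  unfold PSub
  simp only [cardLE_iff, sub_iff']
  have key : ∀ s : M, (∃ α, SetModel.E α κ ∧ Leq s α) ↔ card s ∈ κ := by
    intro s
    constructor
    · rintro ⟨α, hα, h⟩
      have hα' := hκ.isOrd.mem (show α ∈ κ from hα)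
      exact (isCard_card s).isOrd.mem_of_sub_of_mem hκ.isOrd
        (Sub.trans (card_sub_iff.2 h) (card_sub_self hα')) hα
    · exact fun h => ⟨card s, h, (eqn_card s).leq⟩
  simp only [key]
  constructor
  · exact fun h => ext fun s => (h s).trans mem_pws.symm
  · rintro rfl s
    exact mem_pws

theorem normal_iff {κ l p W : M} (hκ : IsCard κ) (ho : om ∈ κ) (hp : ∀ s ∈ p, s ⊆ l) :
    Normal SetModel.E κ l p W ↔ Nfu κ l p W := by
  have e1 : ∀ {X Y : M}, (∀ s, SetModel.E s Y ↔ SetModel.E s p ∧ ¬ SetModel.E s X) ↔ Y = p \ X :=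
    fun {X Y} => ⟨fun h => ext fun s => (h s).trans mem_diff.symm, fun h s => by
      rw [h]; exact mem_diff⟩
  constructor
  · rintro ⟨h1, h2, h3, h4, h5, h6⟩
    have hul : ∀ X, X ⊆ p → (p \ X ∈ W ↔ X ∉ W) := fun X hX => h3 X _ hX (e1.2 rfl)
    have hcomp : ∀ F, IsFun F → dom F ∈ κ → (∀ z ∈ dom F, ap F z ∈ W) →
        sep p (fun x => ∀ z ∈ dom F, x ∈ ap F z) ∈ W := by
      intro F hF hd hz
      refine h4 (dom F) F hd (funOn_iff.2 ⟨hF, rfl⟩) (fun ξ X h => ?_) _ fun s => ?_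
      · rw [rel_iff] at h
        rw [← hF.ap_eq h]
        exact hz ξ (mem_dom.2 ⟨X, h⟩)
      · refine mem_sep.trans (and_congr Iff.rfl ?_)
        simp only [rel_iff]
        constructor
        · intro h ξ X hX
          rw [← hF.ap_eq hX]
          exact h ξ (mem_dom.2 ⟨X, hX⟩)
        · exact fun h z hz => h z _ (hF.op_ap_mem hz)
    refine ⟨hp, h1, fun X hX Y hXY hY => h2 X Y hX hXY hY, fun X hX Y hY => ?_, hul,
      fun z hz => h5 z hz _ fun s => mem_sep, hcomp, fun F hF hd hz => ?_⟩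
    · classical
      have hne : (∅ : M) ≠ sc ∅ := fun h => notMem_empty (∅ : M) (by
        have h' := self_mem_sc (∅ : M)
        rwa [← h] at h')
      have hd : Dff fun γ : E0 M × M => if γ.2 = ∅ then X else Y := Dff.ite
      have h2κ : sc (sc (∅ : M)) ∈ κ := hκ.isOrd.trans (mem_om.2 isNat_empty.sc.sc) ho
      have := hcomp (lam (sc (sc ∅)) fun z => if z = ∅ then X else Y) isFun_lam
        (by rw [dom_lam]; exact h2κ) fun z hz => by
          rw [dom_lam] at hz
          rw [ap_lam hz]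
          split_ifs
          · exact hX
          · exact hY
      refine h2 _ _ this (fun s hs => ?_) fun s hs => h1 X hX s (mem_inter.1 hs).1
      rw [show SetModel.E s (sep p _) ↔ s ∈ sep p _ from Iff.rfl, mem_sep] at hs
      obtain ⟨hs1, hs2⟩ := hs
      have h7 := hs2 ∅ (by rw [dom_lam]; exact mem_sc.2 (Or.inl (self_mem_sc ∅)))
      have h8 := hs2 (sc ∅) (by rw [dom_lam]; exact self_mem_sc _)
      rw [ap_lam (mem_sc.2 (Or.inl (self_mem_sc (∅ : M)))), if_pos rfl] at h7
      rw [ap_lam (self_mem_sc _), if_neg hne.symm] at h8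
      exact mem_inter.2 ⟨h7, h8⟩
    · refine h6 F (funOn_iff.2 ⟨hF, hd⟩) (fun ξ X h => ?_) _ fun s => ?_
      · rw [rel_iff] at h
        rw [← hF.ap_eq h]
        exact hz ξ (hd ▸ mem_dom.2 ⟨X, h⟩)
      · refine mem_sep.trans (and_congr_right fun hs => ?_)
        simp only [rel_iff]
        constructor
        · intro h ξ X hξ hX
          rw [← hF.ap_eq hX]
          exact h ξ hξ
        · exact fun h z hz => h z _ hz (hF.op_ap_mem (hd ▸ hp s hs z hz))
  · rintro ⟨-, h1, h2, -, h3, h5, h4, h6⟩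
    refine ⟨h1, fun X Y hX hXY hY => h2 X hX Y hXY hY, fun X Y hX hY => ?_,
      fun α f hα hf hz Y hY => ?_, fun ξ hξ Y hY => ?_, fun f hf hz Y hY => ?_⟩
    · rw [e1.1 hY]
      exact h3 X hX
    · rw [funOn_iff] at hf
      obtain ⟨hf, rfl⟩ := hf
      have : Y = sep p (fun x => ∀ z ∈ dom f, x ∈ ap f z) := ext fun s => by
        refine (hY s).trans (Iff.trans (and_congr Iff.rfl ?_) mem_sep.symm)
        simp only [rel_iff]
        constructor
        · exact fun h z hz => h z _ (hf.op_ap_mem hz)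
        · intro h ξ X hX
          rw [← hf.ap_eq hX]
          exact h ξ (mem_dom.2 ⟨X, hX⟩)
      rw [this]
      exact h4 f hf hα fun z hz' => hz z _ (rel_iff.2 (hf.op_ap_mem hz'))
    · have : Y = sep p (fun x => ξ ∈ x) := ext fun s => (hY s).trans mem_sep.symm
      rw [this]
      exact h5 ξ hξ
    · rw [funOn_iff] at hf
      obtain ⟨hf, rfl⟩ := hf
      have : Y = sep p (fun x => ∀ z ∈ x, x ∈ ap f z) := ext fun s => by
        refine (hY s).trans (Iff.trans (and_congr_right fun hs => ?_) mem_sep.symm)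
        simp only [rel_iff]
        constructor
        · exact fun h z hz => h z _ hz (hf.op_ap_mem (hp s hs z hz))
        · intro h ξ X hξ hX
          rw [← hf.ap_eq hX]
          exact h ξ hξ
      rw [this]
      exact h6 f hf rfl fun z hz' => hz z _ (rel_iff.2 (hf.op_ap_mem hz'))

/-- supercompact cardinals in the internal library -/
def IsSC (κ : M) : Prop :=
  IsCard κ ∧ om ∈ κ ∧ ∀ l, IsOrd l → κ ⊆ l → ∃ W, Nfu κ l (pws κ l) W

theorem supercompact_iff {κ : M} : Supercompact SetModel.E κ ↔ IsSC κ := by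
  unfold Supercompact IsSC
  simp only [cardl_iff, omega_iff, ordl_iff, exists_eq_left]
  refine and_congr_right fun hκ => and_congr_right fun ho => forall_congr' fun l =>
    forall_congr' fun hl => ?_
  rw [hκ.isOrd.sub_iff hl]
  refine imp_congr Iff.rfl ?_
  constructor
  · rintro ⟨p, W, hp, hW⟩
    rw [psub_iff hκ] at hp
    subst hp
    exact ⟨W, (normal_iff hκ ho fun s hs => (mem_pws.1 hs).1).1 hW⟩
  · rintro ⟨W, hW⟩
    exact ⟨_, W, (psub_iff hκ).2 rfl, (normal_iff hκ ho fun s hs => (mem_pws.1 hs).1).2 hW⟩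

end

end Pool.Agent.SCC
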