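import Pool.Agent.SCC.Inner
import Pool.Agent.IST.Rank
import Pool.Agent.IST.Collapse

/-!
# Inner models with enough sets of ordinals

* `IM.eq_univ`: an inner model which contains every set of ordinals is everything.
* `Cdd`: sets whose subsets are coded by sets of ordinals.
-/

set_option synthInstance.maxSize 100000

namespace Pool.Agent.IST

open Pool.Agent.BVM

namespace TEmb

variable {M N : Type} [SetModel M] [SetModel N] {f : M → N} (h : TEmb f)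

include h

theorem sep_eq {a : M} {P : M → Prop} {Q : N → Prop} [Dfp fun γ : E0 M × M => P γ.2]
    [Dfp fun γ : E0 N × N => Q γ.2] (h' : ∀ x ∈ a, (P x ↔ Q (f x))) :
    f (IST.sep a P) = IST.sep (f a) Q := by
  apply ext
  intro b
  rw [mem_sep]
  constructor
  · intro hb
    obtain ⟨x, hx, rfl⟩ := h.tr hb
    rw [mem_sep] at hx
    exact ⟨h.mem.2 hx.1, (h' x hx.1).1 hx.2⟩
  · rintro ⟨hb, hQ⟩
    obtain ⟨x, hx, rfl⟩ := h.tr hb
    exact h.mem.2 (mem_sep.2 ⟨hx, (h' x hx).2 hQ⟩)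

theorem img_eq {a : M} {F : M → M} {G : N → N} [Dff fun γ : E0 M × M => F γ.2]
    [Dff fun γ : E0 N × N => G γ.2] (h' : ∀ x ∈ a, f (F x) = G (f x)) :
    f (IST.img a F) = IST.img (f a) G := by
  apply ext
  intro b
  rw [mem_img]
  constructor
  · intro hb
    obtain ⟨x, hx, rfl⟩ := h.tr hb
    obtain ⟨y, hy, rfl⟩ := mem_img.1 hx
    exact ⟨f y, h.mem.2 hy, h' y hy⟩
  · rintro ⟨c, hc, rfl⟩
    obtain ⟨y, hy, rfl⟩ := h.tr hc
    rw [← h' y hy]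
    exact h.mem.2 (mem_img.2 ⟨y, hy, rfl⟩)

theorem lam_eq {a : M} {F : M → M} {G : N → N} [Dff fun γ : E0 M × M => F γ.2]
    [Dff fun γ : E0 N × N => G γ.2] (h' : ∀ x ∈ a, f (F x) = G (f x)) :
    f (lam a F) = lam (f a) G := by
  unfold lam
  exact h.img_eq fun x hx => by rw [h.op, h' x hx]

/-- the rank is absolute -/
theorem rk {x : M} : f (IST.rk x) = IST.rk (f x) := by
  have ht : IsTrans (tc (IST.sing x)) := isTrans_tc _
  have hg : IsFun (lam (tc (IST.sing x)) fun y => IST.rk y) := isFun_lam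
  have hval : ∀ y ∈ tc (IST.sing x), f (IST.rk y) =
      IST.ap (f (lam (tc (IST.sing x)) fun y => IST.rk y)) (f y) := by
    intro y hy
    rw [← h.ap hg (by rwa [dom_lam]), ap_lam hy]
  have key : ∀ z : N, z ∈ f (tc (IST.sing x)) →
      IST.ap (f (lam (tc (IST.sing x)) fun y => IST.rk y)) z = IST.rk z := by
    apply mem_ind
    intro z ih hz
    obtain ⟨z', hz', rfl⟩ := h.tr hz
    rw [← hval z' hz']
    have hih : ∀ y ∈ z', f (IST.rk y) = IST.rk (f y) := fun y hy => by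
      rw [hval y (ht z' hz' y hy)]
      exact ih (f y) (h.mem.2 hy) (h.mem.2 (ht z' hz' y hy))
    apply ext
    intro b
    rw [mem_rk]
    constructor
    · intro hb
      obtain ⟨b', hb', rfl⟩ := h.tr hb
      obtain ⟨y, hy, hy'⟩ := mem_rk.1 hb'
      refine ⟨f y, h.mem.2 hy, ?_⟩
      rw [← hih y hy, ← h.sc]
      exact h.mem.2 hy'
    · rintro ⟨c, hc, hb⟩
      obtain ⟨y, hy, rfl⟩ := h.tr hc
      rw [← hih y hy, ← h.sc] at hb
      obtain ⟨b', hb', rfl⟩ := h.tr hb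
      exact h.mem.2 (mem_rk.2 ⟨y, hy, hb'⟩)
  have hx : x ∈ tc (IST.sing x) := sub_tc _ x (mem_sing.2 rfl)
  rw [hval x hx]
  exact key (f x) (h.mem.2 hx)

end TEmb

section

variable {M : Type} [SetModel M] {Γ : Type} [IsCtx Γ M]

/-- the lexicographic order of `a × b` -/
noncomputable def lexr (a b : M) : M := sep (prod (prod a b) (prod a b)) fun z =>
  ∃ x y x' y', z = op (op x y) (op x' y') ∧ (x ∈ x' ∨ x = x' ∧ y ∈ y')

theorem op_mem_lexr {a b x y x' y' : M} : op (op x y) (op x' y') ∈ lexr a b ↔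
    (x ∈ a ∧ y ∈ b) ∧ (x' ∈ a ∧ y' ∈ b) ∧ (x ∈ x' ∨ x = x' ∧ y ∈ y') := by
  unfold lexr
  rw [mem_sep, op_mem_prod, op_mem_prod, op_mem_prod]
  constructor
  · rintro ⟨⟨h1, h2⟩, u, v, u', v', e, h3⟩
    simp only [op_inj] at e
    obtain ⟨⟨rfl, rfl⟩, rfl, rfl⟩ := e
    exact ⟨h1, h2, h3⟩
  · rintro ⟨h1, h2, h3⟩
    exact ⟨⟨h1, h2⟩, x, y, x', y', rfl, h3⟩

/-- `g` is an order isomorphism of the ordinal `θ` with `(a, r)` -/
def OIso (g θ a r : M) : Prop :=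
  IsOrd θ ∧ Bij g θ a ∧ ∀ ξ ∈ θ, ∀ ζ ∈ θ, ζ ∈ ξ ↔ op (ap g ζ) (ap g ξ) ∈ r

theorem exists_oiso_lex {α β : M} (hα : IsOrd α) (hβ : IsOrd β) :
    ∃ g θ : M, OIso g θ (prod α β) (lexr α β) := by
  obtain ⟨θ, g, h1, h2, h3⟩ := exists_ordertype (a := prod α β) (r := lexr α β)
    (fun p hp => by
      obtain ⟨x, hx, y, hy, rfl⟩ := mem_prod.1 hp
      rw [op_mem_lexr]
      rintro ⟨-, -, h | ⟨-, h⟩⟩
      · exact mem_irrefl _ h
      · exact mem_irrefl _ h)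
    (fun p hp q hq r hr h h' => by
      obtain ⟨x, hx, y, hy, rfl⟩ := mem_prod.1 hp
      obtain ⟨x', hx', y', hy', rfl⟩ := mem_prod.1 hq
      obtain ⟨x'', hx'', y'', hy'', rfl⟩ := mem_prod.1 hr
      rw [op_mem_lexr] at h h' ⊢
      refine ⟨⟨hx, hy⟩, ⟨hx'', hy''⟩, ?_⟩
      rcases h.2.2 with h1 | ⟨e1, h1⟩
      · rcases h'.2.2 with h2 | ⟨e2, h2⟩
        · exact Or.inl ((hα.mem hx'').trans h1 h2)
        · exact Or.inl (e2 ▸ h1)
      · rcases h'.2.2 with h2 | ⟨e2, h2⟩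
        · exact Or.inl (e1 ▸ h2)
        · exact Or.inr ⟨e1.trans e2, (hβ.mem hy'').trans h1 h2⟩)
    (fun p hp q hq => by
      obtain ⟨x, hx, y, hy, rfl⟩ := mem_prod.1 hp
      obtain ⟨x', hx', y', hy', rfl⟩ := mem_prod.1 hq
      rw [op_mem_lexr, op_mem_lexr]
      rcases (hα.mem hx).cmp (hα.mem hx') with h | h | h
      · exact Or.inl ⟨⟨hx, hy⟩, ⟨hx', hy'⟩, Or.inl h⟩
      · subst h
        rcases (hβ.mem hy).cmp (hβ.mem hy') with h | h | h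
        · exact Or.inl ⟨⟨hx, hy⟩, ⟨hx', hy'⟩, Or.inr ⟨rfl, h⟩⟩
        · exact Or.inr (Or.inl (by rw [h]))
        · exact Or.inr (Or.inr ⟨⟨hx', hy'⟩, ⟨hx, hy⟩, Or.inr ⟨rfl, h⟩⟩)
      · exact Or.inr (Or.inr ⟨⟨hx', hy'⟩, ⟨hx, hy⟩, Or.inl h⟩))
    (fun b hb hne => by
      obtain ⟨p, hp⟩ := ne_empty_iff.1 hne
      obtain ⟨x, hx, y, hy, rfl⟩ := mem_prod.1 (hb p hp)
      obtain ⟨x0, hx0, hm0⟩ := found (x := dom b) (ne_empty_iff.2 ⟨x, mem_dom.2 ⟨y, hp⟩⟩)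
      obtain ⟨y1, hy1⟩ := mem_dom.1 hx0
      obtain ⟨y0, hy0, hm1⟩ := found (x := sep β fun y => op x0 y ∈ b)
        (ne_empty_iff.2 ⟨y1, mem_sep.2 ⟨(op_mem_prod.1 (hb _ hy1)).2, hy1⟩⟩)
      rw [mem_sep] at hy0
      refine ⟨op x0 y0, hy0.2, fun q hq h => ?_⟩
      obtain ⟨x2, hx2, y2, hy2, rfl⟩ := mem_prod.1 (hb q hq)
      rw [op_mem_lexr] at h
      rcases h.2.2 with h1 | ⟨e1, h1⟩
      · exact hm0 x2 h1 (mem_dom.2 ⟨y2, hq⟩)
      · exact hm1 y2 h1 (mem_sep.2 ⟨hy2, e1 ▸ hq⟩))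
  exact ⟨g, θ, h1, h2, h3⟩

theorem OIso.agree {g θ g' θ' a r : M} (h : OIso g θ a r) (h' : OIso g' θ' a r) :
    ∀ ξ, IsOrd ξ → ξ ∈ θ → ξ ∈ θ' ∧ ap g' ξ = ap g ξ := by
  obtain ⟨hθ, hg, hr⟩ := h
  obtain ⟨hθ', hg', hr'⟩ := h'
  apply ord_ind
  intro ξ hξ ih hξθ
  obtain ⟨η, hη, e⟩ := hg'.surj (hg.maps.ap_mem hξθ)
  rcases (hθ'.mem hη).cmp hξ with h | h | h
  · have h1 := ih η h (hθ.trans h hξθ)
    rw [h1.2] at e
    have := hg.inj (hθ.trans h hξθ) hξθ e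
    exact absurd (this ▸ h) (mem_irrefl _)
  · subst h
    exact ⟨hη, e⟩
  · exfalso
    have hξ' := hθ'.trans h hη
    obtain ⟨ζ, hζ, e'⟩ := hg.surj (hg'.maps.ap_mem hξ')
    have h1 := (hr' η hη ξ hξ').1 h
    rw [← e', e, ← hr ξ hξθ ζ hζ] at h1
    have h2 := ih ζ h1 hζ
    rw [← h2.2] at e'
    have := hg'.inj h2.1 hξ' e'
    exact absurd (this ▸ h1) (mem_irrefl _)

theorem OIso.unique {g θ g' θ' a r : M} (h : OIso g θ a r) (h' : OIso g' θ' a r) : g = g' := by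
  have h1 := h.agree h'
  have h2 := h'.agree h
  refine IsFun.ext h.2.1.maps.isFun h'.2.1.maps.isFun ?_ fun x hx => ?_
  · rw [h.2.1.maps.dom_eq, h'.2.1.maps.dom_eq]
    exact Sub.antisymm (fun ξ hξ => (h1 ξ (h.1.mem hξ) hξ).1)
      fun ξ hξ => (h2 ξ (h'.1.mem hξ) hξ).1
  · rw [h.2.1.maps.dom_eq] at hx
    exact (h1 x (h.1.mem hx) hx).2.symm

end

section

variable {M N : Type} [SetModel M] [SetModel N] {f : M → N}

theorem TEmb.lexr (h : TEmb f) {a b : M} : f (lexr a b) = IST.lexr (f a) (f b) := by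
  unfold IST.lexr
  rw [h.sep_eq (Q := fun z => ∃ x y x' y', z = IST.op (IST.op x y) (IST.op x' y') ∧
    (x ∈ x' ∨ x = x' ∧ y ∈ y')), h.prod, h.prod]
  intro p hp
  obtain ⟨q, hq, q', hq', rfl⟩ := mem_prod.1 hp
  obtain ⟨x, hx, y, hy, rfl⟩ := mem_prod.1 hq
  obtain ⟨x', hx', y', hy', rfl⟩ := mem_prod.1 hq'
  rw [h.op, h.op, h.op]
  constructor
  · rintro ⟨u, v, u', v', e, h1⟩
    simp only [op_inj] at e
    obtain ⟨⟨rfl, rfl⟩, rfl, rfl⟩ := e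
    refine ⟨_, _, _, _, rfl, ?_⟩
    rcases h1 with h1 | ⟨rfl, h1⟩
    · exact Or.inl (h.mem.2 h1)
    · exact Or.inr ⟨rfl, h.mem.2 h1⟩
  · rintro ⟨u, v, u', v', e, h1⟩
    simp only [op_inj] at e
    obtain ⟨⟨rfl, rfl⟩, rfl, rfl⟩ := e
    refine ⟨_, _, _, _, rfl, ?_⟩
    rcases h1 with h1 | ⟨h0, h1⟩
    · exact Or.inl (h.mem.1 h1)
    · exact Or.inr ⟨h.inj h0, h.mem.1 h1⟩

theorem TEmb.oiso (h : TEmb f) {g θ a r : M} (hg : OIso g θ a r) :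
    OIso (f g) (f θ) (f a) (f r) := by
  refine ⟨h.isOrd.2 hg.1, h.bij.2 hg.2.1, fun ξ hξ ζ hζ => ?_⟩
  obtain ⟨ξ', hξ', rfl⟩ := h.tr hξ
  obtain ⟨ζ', hζ', rfl⟩ := h.tr hζ
  have hd := hg.2.1.maps.dom_eq
  rw [← h.ap hg.2.1.maps.isFun (x := ξ') (hd.symm ▸ hξ'),
    ← h.ap hg.2.1.maps.isFun (x := ζ') (hd.symm ▸ hζ'), ← h.op, h.mem, h.mem]
  exact hg.2.2 ξ' hξ' ζ' hζ'

end

end Pool.Agent.IST

namespace Pool.Agent.SCC

open Pool.Agent.BVM Pool.Agent.IST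

namespace IM

section

variable {V : Type} [SetModel V] {A : IM V}

/-- an inner model which contains every set of ordinals is everything -/
theorem eq_univ (H : ∀ y : V, (∀ ξ ∈ y, IsOrd ξ) → A.N y) : ∀ x, A.N x := by
  apply mem_ind
  intro z hz
  obtain ⟨β, hβ, e⟩ := A.temb.exists_of_ord (isOrd_rk z)
  have hzy : z ⊆ A.val (Vr β) := fun c hc => by
    obtain ⟨c', rfl⟩ := A.exists_val (hz c hc)
    rw [A.temb.mem, mem_Vr_iff hβ, ← A.temb.mem, A.temb.rk, ← e]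
    exact rk_mem hc
  obtain ⟨g, hg⟩ := eqn_card (Vr β : A.Ty)
  have hg' := A.temb.bij.2 hg
  have hw := H (im (A.val g) z) fun ξ hξ => by
    obtain ⟨x, hx, hξ'⟩ := mem_im.1 hξ
    have h1 : ξ ∈ ran (A.val g) := mem_ran.2 ⟨x, hξ'⟩
    rw [hg'.2.2] at h1
    exact (A.temb.isOrd.2 (isOrd_card _)).mem h1
  obtain ⟨w, hw⟩ := A.exists_val hw
  have : A.val (IST.sep (Vr β : A.Ty) fun c => ap g c ∈ w) = z := by
    rw [A.temb.sep_eq (Q := fun c => ap (A.val g) c ∈ A.val w)]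
    · apply ext
      intro c
      rw [mem_sep, hw, mem_im]
      constructor
      · rintro ⟨hc, x, hx, hx'⟩
        have h2 := hg'.maps.isFun.ap_eq hx'
        rwa [← hg'.inj (hzy x hx) hc h2]
      · intro hc
        have h1 := hzy c hc
        exact ⟨h1, c, hc, hg'.maps.isFun.op_ap_mem (hg'.maps.dom_eq.symm ▸ h1)⟩
    · intro x hx
      rw [← A.temb.ap hg.maps.isFun (hg.maps.dom_eq.symm ▸ hx), A.temb.mem]
  rw [← this]
  exact A.val_mem _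

theorem n_im {g s : V} (hg : A.N g) (hs : A.N s) : A.N (im g s) := by
  obtain ⟨g, rfl⟩ := A.exists_val hg
  obtain ⟨s, rfl⟩ := A.exists_val hs
  rw [← A.temb.im]
  exact A.val_mem _

theorem n_prod {g s : V} (hg : A.N g) (hs : A.N s) : A.N (prod g s) := by
  obtain ⟨g, rfl⟩ := A.exists_val hg
  obtain ⟨s, rfl⟩ := A.exists_val hs
  rw [← A.temb.prod]
  exact A.val_mem _

theorem n_idf {g : V} (hg : A.N g) : A.N (idf g) := by
  obtain ⟨g, rfl⟩ := A.exists_val hg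
  have : A.val (idf g) = idf (A.val g) := A.temb.lam_eq fun x _ => rfl
  rw [← this]
  exact A.val_mem _

/-- the isomorphism of an ordinal with the lexicographic product of two ordinals is in every
inner model -/
theorem n_oiso {g θ α β : V} (hα : IsOrd α) (hβ : IsOrd β)
    (h : OIso g θ (prod α β) (lexr α β)) : A.N g := by
  obtain ⟨α, hα', rfl⟩ := A.temb.exists_of_ord hα
  obtain ⟨β, hβ', rfl⟩ := A.temb.exists_of_ord hβ
  obtain ⟨g', θ', h'⟩ := exists_oiso_lex hα' hβ'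
  have h1 := A.temb.oiso h'
  rw [A.temb.prod, A.temb.lexr] at h1
  rw [h.unique h1]
  exact A.val_mem _

variable {M : Type} [SetModel M] {e : M → V}

variable (A e) in
/-- the subsets of `a` are coded by sets of ordinals -/
def Cdd (a : M) : Prop := ∃ θ g : M, IsOrd θ ∧ Bij g θ a ∧ A.N (e g)

theorem Cdd.sub (he : TEmb e) (H : ∀ x : M, (∀ ξ ∈ x, IsOrd ξ) → A.N (e x)) {a x : M}
    (h : A.Cdd e a) (hx : x ⊆ a) : A.N (e x) := by
  obtain ⟨θ, g, hθ, hg, hN⟩ := h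
  have h1 := H (sep θ fun ξ => ap g ξ ∈ x) fun ξ hξ => hθ.mem (mem_sep.1 hξ).1
  have : x = im g (sep θ fun ξ => ap g ξ ∈ x) := by
    apply ext
    intro t
    rw [mem_im]
    constructor
    · intro ht
      obtain ⟨ξ, hξ, rfl⟩ := hg.surj (hx t ht)
      exact ⟨ξ, mem_sep.2 ⟨hξ, ht⟩, hg.maps.isFun.op_ap_mem (hg.maps.dom_eq.symm ▸ hξ)⟩
    · rintro ⟨ξ, hξ, ht⟩
      rw [← hg.maps.isFun.ap_eq ht]
      exact (mem_sep.1 hξ).2
  rw [this, he.im]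
  exact n_im hN h1

theorem Cdd.ord (he : TEmb e) {α : M} (hα : IsOrd α) : A.Cdd e α := by
  refine ⟨α, idf α, hα, bij_idf α, ?_⟩
  have : e (idf α) = idf (e α) := he.lam_eq fun x _ => rfl
  rw [this]
  exact n_idf (A.of_ord (he.isOrd.2 hα))

/-- the product of two functions -/
noncomputable def pmap (f g : V) : V :=
  lam (prod (dom f) (dom g)) fun p => op (ap f (p1 p)) (ap g (p2 p))

theorem bij_pmap {f g a b c d : V} (hf : Bij f a c) (hg : Bij g b d) :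
    Bij (pmap f g) (prod a b) (prod c d) := by
  unfold pmap
  rw [hf.maps.dom_eq, hg.maps.dom_eq]
  apply bij_lam
  · intro p hp
    obtain ⟨x, hx, y, hy, rfl⟩ := mem_prod.1 hp
    rw [p1_op, p2_op, op_mem_prod]
    exact ⟨hf.maps.ap_mem hx, hg.maps.ap_mem hy⟩
  · intro p hp q hq e
    obtain ⟨x, hx, y, hy, rfl⟩ := mem_prod.1 hp
    obtain ⟨x', hx', y', hy', rfl⟩ := mem_prod.1 hq
    simp only [p1_op, p2_op, op_inj] at e
    rw [hf.inj hx hx' e.1, hg.inj hy hy' e.2]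
  · intro p hp
    obtain ⟨x, hx, y, hy, rfl⟩ := mem_prod.1 hp
    obtain ⟨x', hx', rfl⟩ := hf.surj hx
    obtain ⟨y', hy', rfl⟩ := hg.surj hy
    exact ⟨op x' y', op_mem_prod.2 ⟨hx', hy'⟩, by rw [p1_op, p2_op]⟩

theorem _root_.Pool.Agent.IST.TEmb.pmap (he : TEmb e) {f g : M} (hf : IsFun f) (hg : IsFun g) :
    e (pmap f g) = pmap (e f) (e g) := by
  unfold IM.pmap
  rw [he.lam_eq (G := fun p => op (ap (e f) (p1 p)) (ap (e g) (p2 p))), he.prod, he.dom, he.dom]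
  intro p hp
  obtain ⟨x, hx, y, hy, rfl⟩ := mem_prod.1 hp
  rw [he.op, he.op, p1_op, p2_op, p1_op, p2_op, he.ap hf hx, he.ap hg hy]

theorem _root_.Pool.Agent.IST.TEmb.cmp (he : TEmb e) {f g : M} (hf : IsFun f) (hg : IsFun g)
    (h : ∀ x ∈ dom f, ap f x ∈ dom g) : e (cmp g f) = cmp (e g) (e f) := by
  unfold IST.cmp
  rw [he.lam_eq (G := fun x => ap (e g) (ap (e f) x)), he.dom]
  intro x hx
  rw [he.ap hg (h x hx), he.ap hf hx]

theorem n_pmap {f g : V} (hf : IsFun f) (hg : IsFun g) (h : A.N f) (h' : A.N g) :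
    A.N (pmap f g) := by
  obtain ⟨f, rfl⟩ := A.exists_val h
  obtain ⟨g, rfl⟩ := A.exists_val h'
  rw [← A.temb.pmap (A.temb.isFun.1 hf) (A.temb.isFun.1 hg)]
  exact A.val_mem _

theorem n_cmp {f g : V} (hf : IsFun f) (hg : IsFun g) (hd : ∀ x ∈ dom f, ap f x ∈ dom g)
    (h : A.N f) (h' : A.N g) : A.N (cmp g f) := by
  obtain ⟨f, rfl⟩ := A.exists_val h
  obtain ⟨g, rfl⟩ := A.exists_val h'
  have hf' := A.temb.isFun.1 hf
  rw [← A.temb.cmp hf' (A.temb.isFun.1 hg)]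
  · exact A.val_mem _
  · intro x hx
    rw [← A.temb.mem, A.temb.dom, A.temb.ap hf' hx]
    exact hd _ (by rw [← A.temb.dom]; exact A.temb.mem.2 hx)

theorem Cdd.prod (he : TEmb e) {a b : M} (h : A.Cdd e a) (h' : A.Cdd e b) :
    A.Cdd e (prod a b) := by
  obtain ⟨α, f, hα, hf, hN⟩ := h
  obtain ⟨β, g, hβ, hg, hN'⟩ := h'
  obtain ⟨k, θ, hk⟩ := exists_oiso_lex hα hβ
  have hfg := bij_pmap hf hg
  refine ⟨θ, cmp (pmap f g) k, hk.1, hk.2.1.cmp hfg, ?_⟩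
  have hd : ∀ x ∈ dom k, ap k x ∈ dom (pmap f g) := fun x hx => by
    rw [hfg.maps.dom_eq]
    exact hk.2.1.maps.ap_mem (hk.2.1.maps.dom_eq ▸ hx)
  rw [he.cmp hk.2.1.maps.isFun hfg.maps.isFun hd, he.pmap hf.maps.isFun hg.maps.isFun]
  have h1 := he.oiso hk
  rw [he.prod, he.lexr] at h1
  refine n_cmp h1.2.1.maps.isFun isFun_lam ?_ (n_oiso (he.isOrd.2 hα) (he.isOrd.2 hβ) h1)
    (n_pmap (he.isFun.2 hf.maps.isFun) (he.isFun.2 hg.maps.isFun) hN hN')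
  intro x hx
  rw [h1.2.1.maps.dom_eq] at hx
  unfold pmap
  rw [dom_lam, (he.bij.2 hf).maps.dom_eq, (he.bij.2 hg).maps.dom_eq]
  exact h1.2.1.maps.ap_mem hx

/-- subsets of the product of two ordinals -/
theorem n_of_sub_prod (he : TEmb e) (H : ∀ x : M, (∀ ξ ∈ x, IsOrd ξ) → A.N (e x)) {α β x : M}
    (hα : IsOrd α) (hβ : IsOrd β) (hx : x ⊆ IST.prod α β) : A.N (e x) :=
  Cdd.sub he H (Cdd.prod he (Cdd.ord he hα) (Cdd.ord he hβ)) hx

/-- functions between ordinals -/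
theorem n_of_maps (he : TEmb e) (H : ∀ x : M, (∀ ξ ∈ x, IsOrd ξ) → A.N (e x)) {α β x : M}
    (hα : IsOrd α) (hβ : IsOrd β) (hx : Maps x α β) : A.N (e x) :=
  n_of_sub_prod he H hα hβ hx.sub_prod

end

end IM

end Pool.Agent.SCC
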