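import Pool.Agent.LP.CodeG
import Pool.Agent.SCC.EqV

/-!
# Inner models of the generic extension which contain new collapses
-/

set_option synthInstance.maxSize 100000

namespace Pool.Agent.SCC

open Pool.Agent.BVM Pool.Agent.IST

namespace IM

section

variable {V : Type} [SetModel V] {A : IM V}

/-- subsets defined by two functions and an unbounded function -/
theorem n_sepA {a t B f : V} (ha : A.N a) (ht : A.N t) (hB : A.N B) (hf : A.N f) :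
    A.N (sep a fun ξ => ∃ γ ∈ ap t ξ, ap B ξ ∈ ap f γ) := by
  obtain ⟨a, rfl⟩ := A.exists_val ha
  obtain ⟨t, rfl⟩ := A.exists_val ht
  obtain ⟨B, rfl⟩ := A.exists_val hB
  obtain ⟨f, rfl⟩ := A.exists_val hf
  rw [← A.temb.sep_eq (P := fun ξ => ∃ γ ∈ ap t ξ, ap B ξ ∈ ap f γ)]
  · exact A.val_mem _
  · intro ξ _
    constructor
    · rintro ⟨γ, hγ, h⟩
      refine ⟨A.val γ, ?_, ?_⟩
      · rw [← A.temb.ap']
        exact A.temb.mem.2 hγ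
      · rw [← A.temb.ap', ← A.temb.ap']
        exact A.temb.mem.2 h
    · rintro ⟨γ, hγ, h⟩
      rw [← A.temb.ap'] at hγ
      obtain ⟨γ', hγ', rfl⟩ := A.temb.tr hγ
      rw [← A.temb.ap', ← A.temb.ap', A.temb.mem] at h
      exact ⟨γ', hγ', h⟩

/-- subsets defined by a relation and a set -/
theorem n_sepB {a h R : V} (ha : A.N a) (hh : A.N h) (hR : A.N R) :
    A.N (sep a fun ξ => ∃ η ∈ h, op ξ η ∈ R) := by
  obtain ⟨a, rfl⟩ := A.exists_val ha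
  obtain ⟨h, rfl⟩ := A.exists_val hh
  obtain ⟨R, rfl⟩ := A.exists_val hR
  rw [← A.temb.sep_eq (P := fun ξ => ∃ η ∈ h, op ξ η ∈ R)]
  · exact A.val_mem _
  · intro ξ _
    constructor
    · rintro ⟨γ, hγ, h⟩
      exact ⟨A.val γ, A.temb.mem.2 hγ, A.temb.op_mem.2 h⟩
    · rintro ⟨γ, hγ, h⟩
      obtain ⟨γ', hγ', rfl⟩ := A.temb.tr hγ
      exact ⟨γ', hγ', A.temb.op_mem.1 h⟩

end

section

variable {M : Type} [SetModel M] [GCh M] {P : LPo M} {G : Gen P} {A : IM G.Ext}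

/-- the generic filter on `PP i`, as a set of ordinals, is in the inner model -/
theorem n_filter (H : ∀ x : M, (∀ ξ ∈ x, IsOrd ξ) → A.N (G.io x)) {i ν ρ e : M} {f : G.Ext}
    (hi : IsOrd i) (hc : card (P.PP i) ∈ P.al i) (hν : IsReg ν) (hνa : P.al i ∈ ν)
    (hfN : A.N f) (hf : Maps f (G.io (P.al i)) (G.io ν))
    (hu : ∀ β ∈ ν, ∃ γ ∈ P.al i, G.io β ∈ ap f (G.io γ)) (hρ : IsOrd ρ)
    (he : Bij e ρ (P.PP i)) :
    ∃ h : G.Ext, A.N h ∧ h ⊆ G.io ρ ∧ ∀ ξ ∈ ρ, (G.io ξ ∈ h ↔ G.G (ap e ξ)) := by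
  obtain ⟨t, B, ht, hB, hcode⟩ := G.exists_code hi hc hν hνa hf hu
  have ht' := he.maps.cmp ht
  have hB' := he.maps.cmp hB
  have htN := n_of_maps G.temb H hρ (P.reg_al hi).isOrd ht'
  have hBN := n_of_maps G.temb H hρ hν.isOrd hB'
  refine ⟨_, n_sepA (A.of_ord (G.temb.isOrd.2 hρ)) htN hBN hfN, fun z hz => (mem_sep.1 hz).1,
    fun ξ hξ => ?_⟩
  have hd : ξ ∈ dom e := by rw [he.maps.dom_eq]; exact hξ
  rw [mem_sep, hcode _ (he.maps.ap_mem hξ), ← G.temb.ap', ← G.temb.ap', ap_cmp hd, ap_cmp hd]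
  constructor
  · rintro ⟨-, γ, hγ, h⟩
    obtain ⟨γ', hγ', rfl⟩ := G.temb.tr hγ
    exact ⟨γ', hγ', h⟩
  · rintro ⟨γ, hγ, h⟩
    exact ⟨G.temb.mem.2 hξ, G.io γ, G.temb.mem.2 hγ, h⟩

/-- every set of ordinals of the extension is in the inner model -/
theorem n_setord (H : ∀ x : M, (∀ ξ ∈ x, IsOrd ξ) → A.N (G.io x))
    (H' : ∀ j : M, IsOrd j → ∃ i ν : M, ∃ f : G.Ext, IsOrd i ∧ j ∈ i ∧
      card (P.PP i) ∈ P.al i ∧ IsReg ν ∧ P.al i ∈ ν ∧ A.N f ∧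
      Maps f (G.io (P.al i)) (G.io ν) ∧ ∀ β ∈ ν, ∃ γ ∈ P.al i, G.io β ∈ ap f (G.io γ))
    {y : G.Ext} (hy : ∀ ξ ∈ y, IsOrd ξ) : A.N y := by
  obtain ⟨μ', hμ', hyμ⟩ := exists_ord_above y
  obtain ⟨μ, hμ, rfl⟩ := G.temb.exists_of_ord hμ'
  obtain ⟨i, ν, f, hi, hji, hc, hν, hνa, hfN, hf, hu⟩ := H' μ hμ
  obtain ⟨e, he⟩ := (eqn_card (P.PP i)).symm
  obtain ⟨h, hN, hh, hG⟩ := n_filter H hi hc hν hνa hfN hf hu (isOrd_card _) he
  have hal := P.reg_al hi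
  have hμa : μ ∈ P.al i := al_sub P hi μ hji
  obtain ⟨R, hR, hy'⟩ := G.subset_level hi hc (card_mem_of_mem hal.isCard hμa) (x := y)
    fun z hz => hyμ z hz (hy z hz)
  have hR' : sep (prod μ (card (P.PP i))) (fun z => op (p1 z) (ap e (p2 z)) ∈ R) ⊆
      prod μ (card (P.PP i)) := fun z hz => (mem_sep.1 hz).1
  have hRN := n_of_sub_prod (A := A) G.temb H hμ (isOrd_card _) hR'
  have hyN := n_sepB (A.of_ord (G.temb.isOrd.2 hμ)) hN hRN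
  have : y = sep (G.io μ) fun ξ => ∃ η ∈ h, op ξ η ∈
      G.io (sep (prod μ (card (P.PP i))) fun z => op (p1 z) (ap e (p2 z)) ∈ R) := by
    apply ext
    intro z
    rw [mem_sep]
    constructor
    · intro hz
      have h1 := hyμ z hz (hy z hz)
      obtain ⟨ξ, hξ, rfl⟩ := G.temb.tr h1
      obtain ⟨r, hr, hrR⟩ := (hy' ξ hξ).1 hz
      obtain ⟨η, hη, rfl⟩ := he.surj (op_mem_prod.1 (hR _ hrR)).2
      refine ⟨h1, G.io η, (hG η hη).2 hr, G.temb.op_mem.2 (mem_sep.2 ⟨op_mem_prod.2 ⟨hξ, hη⟩, ?_⟩)⟩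
      rw [p1_op, p2_op]
      exact hrR
    · rintro ⟨hz, η', hη', h2⟩
      obtain ⟨ξ, hξ, rfl⟩ := G.temb.tr hz
      obtain ⟨η, hη, rfl⟩ := G.temb.tr (hh η' hη')
      obtain ⟨h3, h4⟩ := mem_sep.1 (G.temb.op_mem.1 h2)
      rw [p1_op, p2_op] at h4
      exact (hy' ξ hξ).2 ⟨_, (hG η hη).1 hη', h4⟩
  rw [this]
  exact hyN

/-- an inner model of the extension which contains all sets of ordinals of the ground model and
sufficiently many new collapses is everything -/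
theorem eq_univ_of_codes (H : ∀ x : M, (∀ ξ ∈ x, IsOrd ξ) → A.N (G.io x))
    (H' : ∀ j : M, IsOrd j → ∃ i ν : M, ∃ f : G.Ext, IsOrd i ∧ j ∈ i ∧
      card (P.PP i) ∈ P.al i ∧ IsReg ν ∧ P.al i ∈ ν ∧ A.N f ∧
      Maps f (G.io (P.al i)) (G.io ν) ∧ ∀ β ∈ ν, ∃ γ ∈ P.al i, G.io β ∈ ap f (G.io γ)) :
    ∀ x, A.N x :=
  eq_univ fun _ hy => n_setord H H' hy

end

end IM

end Pool.Agent.SCC
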