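import Pool.Agent.BVM.Notions

/-!
# Supercompact cardinals and inner models of a structure `(M, E)`

`E x y` is read `x ∈ y`.  All notions are relativized to the structure: quantifiers range over
`M`.
-/

namespace Pool.Agent.SCC

open Pool.Agent.BVM

section

variable {M : Type*} (E : M → M → Prop)

/-- `x ⊆ y` -/
def Sub (x y : M) : Prop := ∀ z, E z x → E z y

/-- `κ` is a cardinal: an ordinal which is not the image of a smaller ordinal -/
def Cardl (κ : M) : Prop := Ordl E κ ∧ ∀ α, E α κ → ¬ CardLE E κ α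

/-- `p` is `P_κ(l)`, the set of all subsets of `l` of cardinality less than `κ` -/
def PSub (κ l p : M) : Prop := ∀ s, E s p ↔ Sub E s l ∧ ∃ α, E α κ ∧ CardLE E s α

/-- `W` is a normal fine `κ`-complete ultrafilter on the set `p = P_κ(l)` -/
structure Normal (κ l p W : M) : Prop where
  /-- the elements of `W` are subsets of `p` -/
  sub : ∀ X, E X W → Sub E X p
  /-- `W` is closed upwards -/
  up : ∀ X Y, E X W → Sub E X Y → Sub E Y p → E Y W
  /-- for every subset `X` of `p`, exactly one of `X` and `p \ X` is in `W` -/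
  ultra : ∀ X Y, Sub E X p → (∀ s, E s Y ↔ E s p ∧ ¬ E s X) → (E Y W ↔ ¬ E X W)
  /-- `W` is closed under intersections of fewer than `κ` of its elements -/
  complete : ∀ α f, E α κ → FunOn E f α → (∀ ξ X, Rel E f ξ X → E X W) →
    ∀ Y, (∀ s, E s Y ↔ E s p ∧ ∀ ξ X, Rel E f ξ X → E s X) → E Y W
  /-- `W` is fine: for `ξ ∈ l` almost all `s` contain `ξ` -/
  fine : ∀ ξ, E ξ l → ∀ Y, (∀ s, E s Y ↔ E s p ∧ E ξ s) → E Y W
  /-- `W` is normal: closed under diagonal intersections of length `l` -/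
  normal : ∀ f, FunOn E f l → (∀ ξ X, Rel E f ξ X → E X W) →
    ∀ Y, (∀ s, E s Y ↔ E s p ∧ ∀ ξ X, E ξ s → Rel E f ξ X → E s X) → E Y W

/-- `κ` is a supercompact cardinal: an uncountable cardinal such that for every ordinal `l ≥ κ`
there is a normal fine `κ`-complete ultrafilter on `P_κ(l)` -/
def Supercompact (κ : M) : Prop :=
  Cardl E κ ∧ (∃ w, Omega E w ∧ E w κ) ∧
    ∀ l, Ordl E l → (E κ l ∨ κ = l) → ∃ p W, PSub E κ l p ∧ Normal E κ l p W

/-- the relation `E` on the class `N` -/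
def Rst (N : M → Prop) (x y : {x // N x}) : Prop := E x.1 y.1

/-- `N` is an inner model of `(M, E)`: a transitive class, definable with parameters, which
contains all ordinals and satisfies ZFC -/
structure InnerModel (N : M → Prop) : Prop where
  /-- `N` is defined by a formula with parameters -/
  dfn : ∃ (φ : Fml) (v : ℕ → M), ∀ x, N x ↔ Sat E φ (cons x v)
  /-- `N` is transitive -/
  trans : ∀ x y, N y → E x y → N x
  /-- `N` contains all ordinals -/
  ord : ∀ x, Ordl E x → N x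
  /-- `N` satisfies ZFC -/
  zfc : ZFC (Rst E N)

/-- every cardinal of `N` is a cardinal of `(M, E)` -/
def SameCard (N : M → Prop) : Prop := ∀ x : {x // N x}, Cardl (Rst E N) x → Cardl E x.1

/-! ### formulas -/

/-- formula of `Sub` -/
def fSub (x y : ℕ) : Fml := .all (.imp (.mem 0 (x + 1)) (.mem 0 (y + 1)))

/-- formula of `UPair` -/
def fUPair (z x y : ℕ) : Fml := .all (.iff (.mem 0 (z + 1)) (.or (.eq 0 (x + 1)) (.eq 0 (y + 1))))

/-- formula of `OPair` -/
def fOPair (z x y : ℕ) : Fml :=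
  .ex (.ex (.and (fUPair 1 (x + 2) (x + 2)) (.and (fUPair 0 (x + 2) (y + 2)) (fUPair (z + 2) 1 0))))

/-- formula of `Rel` -/
def fRel (f x y : ℕ) : Fml := .ex (.and (fOPair 0 (x + 1) (y + 1)) (.mem 0 (f + 1)))

/-- formula of `FunOn` -/
def fFunOn (f d : ℕ) : Fml :=
  .and (.all (.imp (.mem 0 (f + 1)) (.ex (.ex (.and (.mem 1 (d + 3)) (fOPair 2 1 0))))))
    (.all (.imp (.mem 0 (d + 1)) (.ex (.and (fRel (f + 2) 1 0)
      (.all (.imp (fRel (f + 3) 2 0) (.eq 0 1)))))))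

/-- formula of `Tran` -/
def fTran (x : ℕ) : Fml := .all (.all (.imp (.mem 1 (x + 2)) (.imp (.mem 0 1) (.mem 0 (x + 2)))))

/-- formula of `Ordl` -/
def fOrdl (x : ℕ) : Fml := .and (fTran x) (.all (.imp (.mem 0 (x + 1)) (fTran 0)))

/-- formula of `Limit` -/
def fLimit (x : ℕ) : Fml := .and (fOrdl x) (.and (.ex (.mem 0 (x + 1)))
  (.all (.imp (.mem 0 (x + 1)) (.ex (.and (.mem 0 (x + 2)) (.mem 1 0))))))

/-- formula of `Omega` -/
def fOmega (w : ℕ) : Fml := .and (fLimit w) (.all (.imp (.mem 0 (w + 1)) (.neg (fLimit 0))))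

/-- formula of `CardLE` -/
def fCardLE (b a : ℕ) : Fml :=
  .ex (.and (.all (.all (.all (.imp (fRel 3 2 1) (.imp (fRel 3 2 0) (.eq 0 1))))))
    (.all (.imp (.mem 0 (b + 2)) (.ex (.and (.mem 0 (a + 3)) (fRel 2 0 1))))))

/-- formula of `Cardl` -/
def fCardl (k : ℕ) : Fml :=
  .and (fOrdl k) (.all (.imp (.mem 0 (k + 1)) (.neg (fCardLE (k + 1) 0))))

/-- formula of `PSub` -/
def fPSub (k l p : ℕ) : Fml := .all (.iff (.mem 0 (p + 1))
  (.and (fSub 0 (l + 1)) (.ex (.and (.mem 0 (k + 2)) (fCardLE 1 0)))))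

/-- formula of `Normal` -/
def fNormal (k l p W : ℕ) : Fml :=
  .and (.all (.imp (.mem 0 (W + 1)) (fSub 0 (p + 1)))) <|
  .and (.all (.all (.imp (.mem 1 (W + 2)) (.imp (fSub 1 0) (.imp (fSub 0 (p + 2))
    (.mem 0 (W + 2))))))) <|
  .and (.all (.all (.imp (fSub 1 (p + 2)) (.imp (.all (.iff (.mem 0 1) (.and (.mem 0 (p + 3))
    (.neg (.mem 0 2))))) (.iff (.mem 0 (W + 2)) (.neg (.mem 1 (W + 2)))))))) <|
  .and (.all (.all (.imp (.mem 1 (k + 2)) (.imp (fFunOn 0 1)
    (.imp (.all (.all (.imp (fRel 2 1 0) (.mem 0 (W + 4)))))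
    (.all (.imp (.all (.iff (.mem 0 1) (.and (.mem 0 (p + 4))
      (.all (.all (.imp (fRel 4 1 0) (.mem 2 0))))))) (.mem 0 (W + 3))))))))) <|
  .and (.all (.imp (.mem 0 (l + 1)) (.all (.imp (.all (.iff (.mem 0 1) (.and (.mem 0 (p + 3))
    (.mem 2 0)))) (.mem 0 (W + 2)))))) <|
  .all (.imp (fFunOn 0 (l + 1)) (.imp (.all (.all (.imp (fRel 2 1 0) (.mem 0 (W + 3)))))
    (.all (.imp (.all (.iff (.mem 0 1) (.and (.mem 0 (p + 3)) (.all (.all (.imp (.mem 1 2)
      (.imp (fRel 4 1 0) (.mem 2 0)))))))) (.mem 0 (W + 2))))))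

/-- formula of `Supercompact` -/
def fSupercompact (k : ℕ) : Fml :=
  .and (fCardl k) (.and (.ex (.and (fOmega 0) (.mem 0 (k + 1)))) (.all (.imp (fOrdl 0)
    (.imp (.or (.mem (k + 1) 0) (.eq (k + 1) 0)) (.ex (.ex (.and (fPSub (k + 3) 2 1)
      (fNormal (k + 3) 2 1 0))))))))

variable (v : ℕ → M)

theorem sat_fRel (f x y : ℕ) : Sat E (fRel f x y) v ↔ Rel E (v f) (v x) (v y) := Iff.rfl

theorem sat_fFunOn (f d : ℕ) : Sat E (fFunOn f d) v ↔ FunOn E (v f) (v d) := Iff.rfl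

theorem sat_fOrdl (x : ℕ) : Sat E (fOrdl x) v ↔ Ordl E (v x) := Iff.rfl

theorem sat_fOmega (x : ℕ) : Sat E (fOmega x) v ↔ Omega E (v x) := Iff.rfl

theorem sat_fCardLE (x y : ℕ) : Sat E (fCardLE x y) v ↔ CardLE E (v x) (v y) := Iff.rfl

theorem sat_fCardl (x : ℕ) : Sat E (fCardl x) v ↔ Cardl E (v x) := Iff.rfl

theorem sat_fPSub (x y z : ℕ) : Sat E (fPSub x y z) v ↔ PSub E (v x) (v y) (v z) := Iff.rfl

theorem sat_fNormal (k l p W : ℕ) :
    Sat E (fNormal k l p W) v ↔ Normal E (v k) (v l) (v p) (v W) := by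
  constructor
  · rintro ⟨h1, h2, h3, h4, h5, h6⟩
    exact ⟨h1, h2, h3, h4, h5, h6⟩
  · rintro ⟨h1, h2, h3, h4, h5, h6⟩
    exact ⟨h1, h2, h3, h4, h5, h6⟩

theorem sat_fSupercompact (k : ℕ) :
    Sat E (fSupercompact k) v ↔ Supercompact E (v k) := by
  refine and_congr Iff.rfl (and_congr Iff.rfl (forall_congr' fun l => imp_congr Iff.rfl
    (imp_congr Iff.rfl (exists_congr fun p => exists_congr fun W => and_congr Iff.rfl ?_))))
  exact sat_fNormal E _ _ _ _ _

end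

end Pool.Agent.SCC
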