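import Pool.Agent.SCC.Code2
import Pool.Agent.SC.Asm

/-!
# The generic extension has the required properties
-/

set_option synthInstance.maxSize 100000

namespace Pool.Agent.SCC

open Pool.Agent.BVM Pool.Agent.IST

section

variable {M : Type} [SetModel M] [GCh M] {P : LPo M} (G : Gen P)

/-- H4: the inner model contains the sets of ordinals of the ground model -/
def H4 (A : IM G.Ext) : Prop := ∀ x : M, (∀ ξ ∈ x, IsOrd ξ) → A.N (G.io x)

/-- H3: the inner model contains new collapses -/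
def H3 (A : IM G.Ext) : Prop := ∀ j : M, IsOrd j → ∃ i ν : M, ∃ f : G.Ext, IsOrd i ∧ j ∈ i ∧
  card (P.PP i) ∈ P.al i ∧ IsReg ν ∧ P.al i ∈ ν ∧ A.N f ∧
  Maps f (G.io (P.al i)) (G.io ν) ∧ ∀ β ∈ ν, ∃ γ ∈ P.al i, G.io β ∈ ap f (G.io γ)

/-- what is proved about a model of set theory -/
def Good (V : Type) (E : V → V → Prop) : Prop :=
  ZFC E ∧ (∃ κ, Supercompact E κ) ∧ ∀ N, InnerModel E N → SameCard E N → ∀ x, N x

theorem good_ext {κ : M} (hκ : IsOrd κ) (ho : (om : M) ∈ κ)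
    (hM : ∀ l1, IsOrd l1 → κ ⊆ l1 → ∃ j0, IsOrd j0 ∧
      ∀ j, IsOrd j → j0 ⊆ j → P.MainS κ (sc j) l1)
    (hN : ∀ A : IM G.Ext, A.Same → H4 G A ∧ H3 G A) : Good G.Ext SetModel.E := by
  refine ⟨SetModel.zfc.zfc, ⟨G.io κ, supercompact_iff.2 (G.supercompact hκ ho hM)⟩, ?_⟩
  intro N hN1 hN2
  obtain ⟨h4, h3⟩ := hN ⟨N, hN1⟩ hN2
  exact IM.eq_univ_of_codes (A := ⟨N, hN1⟩) h4 h3

end

end Pool.Agent.SCC
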