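import Pool.Agent.SCC.EqV
import Pool.Agent.LP.EmbC
import Pool.Agent.LP.CardV
import Pool.Agent.IST.CardExp

/-!
# Inner models with the same cardinals read the bits
-/

set_option synthInstance.maxSize 100000

namespace Pool.Agent.IST

open Pool.Agent.BVM

/-- the bit of the limit cardinal `a`, as read in a model: there is an injection of `a⁺⁺⁺⁺` into
the power set of `a⁺⁺` -/
def RBit {N : Type} [SetModel N] (a : N) : Prop :=
  Leq (scard (scard (scard (scard a)))) (pw (scard (scard a)))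

instance RBit.dfp {N : Type} [SetModel N] {Γ : Type} [IsCtx Γ N] {f : Γ → N} [Dff f] :
    Dfp fun γ => RBit (f γ) := by
  unfold RBit; infer_instance

/-- the coding property of the bits -/
def COD (M : Type) [SetModel M] [BitC M] : Prop :=
  ∀ t x l0 : M, IsOrd t → IsOrd l0 → x ⊆ t → ∃ l l' g : M, l0 ∈ l ∧ IsLim l ∧ IsOrd l' ∧
    Maps g t l' ∧ (∀ ξ ∈ t, IsLim (ap g ξ) ∧ l ⊆ ap g ξ) ∧
    (∀ ξ ∈ t, ∀ ζ ∈ ξ, ap g ζ ∈ ap g ξ) ∧
    (∀ m ∈ l', IsLim m → l ⊆ m → ∃ ξ ∈ t, m = ap g ξ) ∧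
    ∀ ξ ∈ t, (Bit1 (sc (ap g ξ)) ↔ ξ ∈ x)

end Pool.Agent.IST

namespace Pool.Agent.SCC

open Pool.Agent.BVM Pool.Agent.IST

namespace IM

variable {V M : Type} [SetModel V] [SetModel M] [BitC M] {A : IM V} {e : M → V}

theorem scard_mem_limC {V : Type} [SetModel V] {a b : V} (hb : LimC b) (h : a ∈ b) :
    scard a ∈ b := hb.2.2 a h

theorem limC_val (hA : A.Same) {x : A.Ty} : LimC (A.val x) ↔ LimC x := by
  unfold LimC
  rw [isCard_val hA, ← A.temb.om, A.temb.mem, A.temb.allB]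
  refine and_congr_right fun h1 => and_congr_right fun _ => forall_congr' fun y =>
    imp_congr_right fun hy => ?_
  rw [← val_scard hA (h1.isOrd.mem hy), A.temb.mem]

/-- BP3.1: the inner model contains a bijection between `α_i` and its successor in `M` -/
theorem exists_collapse (hA : A.Same) (hV : VFacts e) {i : M} (hi : IsOrd i) :
    ∃ f, A.N f ∧ Bij f (e (alp i)) (e (scard (alp i))) := by
  obtain ⟨κ, hκ, e1⟩ := A.temb.exists_of_ord (hV.emb.isOrd.2 (isOrd_alp hi))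
  obtain ⟨ν, hν, e2⟩ := A.temb.exists_of_ord
    (hV.emb.isOrd.2 (isCard_scard (isOrd_alp hi)).isOrd)
  have h1 := hV.eqn_scard_alp hi
  rw [e1, e2, eqn_val hA] at h1
  obtain ⟨g, hg⟩ := h1.symm
  refine ⟨A.val g, A.val_mem g, ?_⟩
  rw [e1, e2]
  exact A.temb.bij.2 hg

/-- BP3.4, bit 0 -/
theorem not_rbit (hA : A.Same) (hV : VFacts e) {l : M} (hl : IsLim l) (hb : ¬ Bit1 (sc l))
    {a : A.Ty} (ha : A.val a = e (dlt l)) : ¬ RBit a := by
  intro h
  have ho : IsOrd a := A.temb.isOrd.1 (by rw [ha]; exact hV.emb.isOrd.2 (infCard_dlt hl.1).isOrd)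
  have ho1 := (isCard_scard ho).isOrd
  have ho2 := (isCard_scard ho1).isOrd
  have ho3 := (isCard_scard ho2).isOrd
  have e1 : A.val (scard a) = e (alp l) := by
    rw [val_scard hA ho, ha, hV.scard_dlt hl]
  have e2 : A.val (scard (scard a)) = e (alp (sc l)) := by
    rw [val_scard hA ho1, e1, hV.scard_alp_of_not hl.1 (not_bit1_lim hl)]
  have e3 : A.val (scard (scard (scard a))) = e (alp (sc (sc l))) := by
    rw [val_scard hA ho2, e2, hV.scard_alp_of_not hl.1.sc hb]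
  have h1 := A.temb.leq h
  rw [val_scard hA ho3, e3] at h1
  have h2 : Leq (A.val (pw (scard (scard a)))) (pw (e (alp (sc l)))) := by
    rw [← e2]
    exact leq_of_sub val_pw_sub
  have h3 := (h1.trans h2).trans (hV.leq_pw hl hb)
  have h4 := hV.card_alp hl.1.sc.sc
  exact (isCard_scard h4.isOrd).not_leq (mem_scard_self h4.isOrd) h3

/-- BP3.4, bit 1; `hS` is the conclusion of the permutation argument -/
theorem rbit (hA : A.Same) (hV : VFacts e) {l : M} (hl : IsLim l) (hb : Bit1 (sc l))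
    (hS : ∀ S : V, (∀ g, A.N g → Maps g (e (alp (sc l))) (e (scard (alp (sc l)))) → g ∈ S) →
      Leq (e (scard (scard (tau (sc l))))) S)
    {a : A.Ty} (ha : A.val a = e (dlt l)) : RBit a := by
  have ho : IsOrd a := A.temb.isOrd.1 (by rw [ha]; exact hV.emb.isOrd.2 (infCard_dlt hl.1).isOrd)
  have ho1 := (isCard_scard ho).isOrd
  have ho2 := (isCard_scard ho1).isOrd
  have ho3 := (isCard_scard ho2).isOrd
  have e1 : A.val (scard a) = e (alp l) := by
    rw [val_scard hA ho, ha, hV.scard_dlt hl]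
  have e2 : A.val (scard (scard a)) = e (alp (sc l)) := by
    rw [val_scard hA ho1, e1, hV.scard_alp_of_not hl.1 (not_bit1_lim hl)]
  have e3 : A.val (scard (scard (scard a))) = e (scard (tau (sc l))) := by
    rw [val_scard hA ho2, e2, hV.scard_alp_of_bit hl.1.sc hb]
  have e4 : A.val (scard (scard (scard (scard a)))) = e (scard (scard (tau (sc l)))) := by
    rw [val_scard hA ho3, e3, hV.scard_tau1 hl.1.sc hb]
  obtain ⟨ν, hν, e5⟩ := A.temb.exists_of_ord
    (hV.emb.isOrd.2 (isCard_scard (isOrd_alp hl.1.sc)).isOrd)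
  have h1 : Leq (A.val (scard (scard (scard (scard a))))) (A.val (fns (scard (scard a)) ν)) := by
    rw [e4]
    refine hS _ fun g hg hm => ?_
    obtain ⟨g, rfl⟩ := A.exists_val hg
    rw [A.temb.mem, mem_fns, ← A.temb.maps, e2, ← e5]
    exact hm
  rw [leq_val hA] at h1
  refine h1.trans (leq_fns_pw ?_ (Leq.refl _) ?_)
  · rw [← infCard_val hA, e2]
    refine ⟨hV.card_alp hl.1.sc, ?_⟩
    exact (hV.card_alp hl.1.sc).isOrd.sub_of_mem (hV.om_mem_alp hl.1.sc)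
  · refine Leq.trans ?_ (leq_pw_self _)
    rw [← leq_val hA, e2, ← e5]
    exact (hV.eqn_scard_alp hl.1.sc).leq

/-- BP45 4.2: every set of ordinals of `M` is in the inner model -/
theorem n_of_ords (hA : A.Same) (hV : VFacts e) (hcod : COD M) {l0 : M} (hl0 : IsOrd l0)
    (hS : ∀ l : M, IsLim l → l0 ∈ l → Bit1 (sc l) → ∀ S : V,
      (∀ g, A.N g → Maps g (e (alp (sc l))) (e (scard (alp (sc l)))) → g ∈ S) →
      Leq (e (scard (scard (tau (sc l))))) S)
    {x : M} (hx : ∀ ξ ∈ x, IsOrd ξ) : A.N (e x) := by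
  have he := hV.emb
  obtain ⟨t, ht, hxt⟩ := exists_ord_above x
  have hxt' : x ⊆ t := fun ξ hξ => hxt ξ hξ (hx ξ hξ)
  obtain ⟨l, l', g, h0l, hl, hl', hg, hg1, hg2, hg3, hg4⟩ := hcod t x l0 ht hl0 hxt'
  obtain ⟨μ, hμ, eμ⟩ := A.temb.exists_of_ord (he.isOrd.2 ht)
  obtain ⟨d, hd, ed⟩ := A.temb.exists_of_ord (he.isOrd.2 (infCard_dlt hl.1).isOrd)
  obtain ⟨d', hd', ed'⟩ := A.temb.exists_of_ord (he.isOrd.2 (infCard_dlt hl').isOrd)
  set k : M := lam t fun ξ => dlt (ap g ξ) with hk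
  have hkf : IsFun k := isFun_lam
  have hap : ∀ ξ ∈ t, ap (e k) (e ξ) = e (dlt (ap g ξ)) := fun ξ hξ => by
    rw [← he.ap', hk, ap_lam hξ]
  have hdlt : ∀ m m' : M, IsLim m → IsLim m' → m ∈ m' → dlt m ∈ dlt m' := fun m m' hm hm' h =>
    alp_sub_dlt h _ (dlt_mem_alp hm.1)
  suffices key : ∃ s, e x = A.val s by
    obtain ⟨s, hs⟩ := key
    rw [hs]
    exact A.val_mem s
  refine A.temb.read (μ := μ) (L := sep d' fun c => LimC c ∧ d ⊆ c) hμ
    (fun ξ => ap (e k) ξ) (x := e x) ?_ ?_ ?_ (fun a => RBit a) ?_ ?_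
  · rw [← eμ, he.allB]
    intro ξ hξ
    rw [hap ξ hξ]
    exact he.isOrd.2 (infCard_dlt (hg1 ξ hξ).1.1).isOrd
  · rw [← eμ, he.allB]
    intro ξ hξ
    rw [he.allB]
    intro ζ hζ
    have hζ' := ht.trans hζ hξ
    rw [hap ξ hξ, hap ζ hζ', he.mem]
    exact hdlt _ _ (hg1 ζ hζ').1 (hg1 ξ hξ).1 (hg2 ξ hξ ζ hζ)
  · intro b
    rw [← eμ, he.exB]
    constructor
    · intro hb
      obtain ⟨c, hc, rfl⟩ := A.temb.tr hb
      rw [mem_sep] at hc
      obtain ⟨hc1, hc2, hc3⟩ := hc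
      rw [← limC_val hA, hV.limC_iff] at hc2
      obtain ⟨m, hm, em⟩ := hc2
      have h1 : m ∈ l' := by
        rw [← A.temb.mem, ← ed', em, he.mem] at hc1
        rcases hl'.total hm.1 with h2 | h2
        · exact absurd (dlt_mono h2 _ hc1) (mem_irrefl _)
        · exact h2
      have h2 : l ⊆ m := by
        rw [← A.temb.sub, ← ed, em, he.sub] at hc3
        rcases hl.1.total hm.1 with h2 | h2
        · exact h2
        · exact absurd (hc3 _ (hdlt m l hm hl h2)) (mem_irrefl _)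
      obtain ⟨ξ, hξ, rfl⟩ := hg3 m h1 hm h2
      exact ⟨ξ, hξ, by rw [hap ξ hξ, em]⟩
    · rintro ⟨ξ, hξ, rfl⟩
      rw [hap ξ hξ]
      obtain ⟨h1, h2⟩ := hg1 ξ hξ
      obtain ⟨c, hc, ec⟩ := A.temb.exists_of_ord (he.isOrd.2 (infCard_dlt h1.1).isOrd)
      rw [ec, A.temb.mem, mem_sep, ← limC_val hA, ← A.temb.sub, ← A.temb.mem, ← ec, ← ed, ← ed',
        he.sub, he.mem]
      exact ⟨alp_sub_dlt (hg.ap_mem hξ) _ (dlt_mem_alp h1.1), hV.limC_dlt h1, dlt_mono h2⟩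
  · rw [← eμ, he.sub]
    exact hxt'
  · intro ξ' hξ' a ha
    rw [← A.temb.mem, ← eμ] at hξ'
    obtain ⟨ξ, hξ, eξ⟩ := he.tr hξ'
    rw [eξ] at ha ⊢
    rw [hap ξ hξ] at ha
    rw [he.mem, ← hg4 ξ hξ]
    have h1 := hg1 ξ hξ
    constructor
    · intro hb
      exact rbit hA hV h1.1 hb (hS _ h1.1 (h1.2 _ h0l) hb) ha
    · intro hb
      by_contra hb'
      exact not_rbit hA hV h1.1 hb' ha hb

end IM

end Pool.Agent.SCC
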