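import Pool.Agent.SCC.Fin0
import Pool.Agent.SCC.Read
import Pool.Agent.LP.Inst

/-!
# The generic extension by the iteration
-/

set_option synthInstance.maxSize 100000

namespace Pool.Agent.SCC

open Pool.Agent.BVM Pool.Agent.IST

section

variable {M : Type} [SetModel M] [GCh M] [BitC M] (G : Gen (IT M))

/-- BP3.3: many functions from `al i` to its successor in the inner model, `i` a bit 1 stage -/
def P5 (A : IM G.Ext) : Prop := ∃ l0 : M, IsOrd l0 ∧ ∀ l : M, IsLim l → l0 ∈ l → Bit1 (sc l) →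
  ∀ S : G.Ext, (∀ g, A.N g → Maps g (G.io (alp (sc l))) (G.io (scard (alp (sc l)))) → g ∈ S) →
  Leq (G.io (scard (scard (tau (sc l))))) S

theorem h3_of {A : IM G.Ext} (hA : A.Same) (hV : VFacts G.io) : H3 G A := by
  intro j hj
  obtain ⟨f, hf, hb⟩ := IM.exists_collapse hA hV hj.sc
  have ha : InfCard (alp (sc j)) := (isReg_alp hj.sc).infCard
  have hν := isReg_scard ha
  refine ⟨sc j, scard (alp (sc j)), f, hj.sc, self_mem_sc j, card_CP_sc hj, hν,
    mem_scard_self ha.isOrd, hf, hb.maps, fun β hβ => ?_⟩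
  have h1 : sc β ∈ scard (alp (sc j)) := hν.infCard.isLim.2.2 β hβ
  obtain ⟨γ, hγ, e⟩ := hb.surj (G.temb.mem.2 h1)
  obtain ⟨γ', hγ', rfl⟩ := G.temb.tr hγ
  refine ⟨γ', hγ', ?_⟩
  rw [e]
  exact G.temb.mem.2 (self_mem_sc β)

theorem good_lpo {κ : M} (hκ : IsOrd κ) (ho : (om : M) ∈ κ)
    (hM : ∀ l1, IsOrd l1 → κ ⊆ l1 → ∃ j0, IsOrd j0 ∧
      ∀ j, IsOrd j → j0 ⊆ j → (IT M).MainS κ (sc j) l1)
    (hV : VFacts G.io) (hcod : COD M) (h5 : ∀ A : IM G.Ext, A.Same → P5 G A) :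
    Good G.Ext SetModel.E := by
  refine good_ext G hκ ho hM fun A hA => ⟨?_, h3_of G hA hV⟩
  obtain ⟨l0, hl0, hS⟩ := h5 A hA
  intro x hx
  exact IM.n_of_ords hA hV hcod hl0 hS hx

end

end Pool.Agent.SCC
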