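import Pool.Agent.SCC.Defs

/-!
# The downward Löwenheim-Skolem theorem
-/

namespace Pool.Agent.SCC

open Pool.Agent.BVM

/-- a bound for the free variables -/
def bd : Fml → ℕ
  | .mem i j => max i j + 1
  | .eq i j => max i j + 1
  | .neg a => bd a
  | .and a b => max (bd a) (bd b)
  | .or a b => max (bd a) (bd b)
  | .imp a b => max (bd a) (bd b)
  | .iff a b => max (bd a) (bd b)
  | .all a => bd a - 1
  | .ex a => bd a - 1

/-- rename variables -/
def rnF : (ℕ → ℕ) → Fml → Fml
  | f, .mem i j => .mem (f i) (f j)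
  | f, .eq i j => .eq (f i) (f j)
  | f, .neg a => .neg (rnF f a)
  | f, .and a b => .and (rnF f a) (rnF f b)
  | f, .or a b => .or (rnF f a) (rnF f b)
  | f, .imp a b => .imp (rnF f a) (rnF f b)
  | f, .iff a b => .iff (rnF f a) (rnF f b)
  | f, .all a => .all (rnF (fun i => Nat.casesOn i 0 fun k => f k + 1) a)
  | f, .ex a => .ex (rnF (fun i => Nat.casesOn i 0 fun k => f k + 1) a)

section

variable {M : Type*} (E : M → M → Prop)

theorem cons_lift (x : M) (v : ℕ → M) (f : ℕ → ℕ) :
    (fun i => cons x v (Nat.casesOn i 0 fun k => f k + 1)) = cons x fun i => v (f i) := by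
  funext i
  cases i <;> rfl

theorem sat_rnF (f : ℕ → ℕ) (φ : Fml) (v : ℕ → M) :
    Sat E (rnF f φ) v ↔ Sat E φ fun i => v (f i) := by
  induction φ generalizing f v with
  | mem i j => rfl
  | eq i j => rfl
  | neg a ih => simp only [rnF, Sat, ih]
  | and a b iha ihb => simp only [rnF, Sat, iha, ihb]
  | or a b iha ihb => simp only [rnF, Sat, iha, ihb]
  | imp a b iha ihb => simp only [rnF, Sat, iha, ihb]
  | iff a b iha ihb => simp only [rnF, Sat, iha, ihb]
  | all a ih => simp only [rnF, Sat, ih, cons_lift]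
  | ex a ih => simp only [rnF, Sat, ih, cons_lift]

theorem cons_agree {x : M} {v w : ℕ → M} {n : ℕ} (h : ∀ i < n - 1, v i = w i) :
    ∀ i < n, cons x v i = cons x w i := by
  intro i hi
  cases i with
  | zero => rfl
  | succ k => exact h k (by omega)

theorem sat_agree (φ : Fml) (v w : ℕ → M) (h : ∀ i < bd φ, v i = w i) :
    Sat E φ v ↔ Sat E φ w := by
  induction φ generalizing v w with
  | mem i j =>
    simp only [bd] at h
    simp only [Sat]
    rw [h i (by omega), h j (by omega)]
  | eq i j =>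
    simp only [bd] at h
    simp only [Sat]
    rw [h i (by omega), h j (by omega)]
  | neg a ih => simp only [Sat, ih v w h]
  | and a b iha ihb =>
    simp only [bd] at h
    simp only [Sat, iha v w fun i hi => h i (by omega), ihb v w fun i hi => h i (by omega)]
  | or a b iha ihb =>
    simp only [bd] at h
    simp only [Sat, iha v w fun i hi => h i (by omega), ihb v w fun i hi => h i (by omega)]
  | imp a b iha ihb =>
    simp only [bd] at h
    simp only [Sat, iha v w fun i hi => h i (by omega), ihb v w fun i hi => h i (by omega)]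
  | iff a b iha ihb =>
    simp only [bd] at h
    simp only [Sat, iha v w fun i hi => h i (by omega), ihb v w fun i hi => h i (by omega)]
  | all a ih =>
    simp only [bd] at h
    exact forall_congr' fun x => ih _ _ (cons_agree h)
  | ex a ih =>
    simp only [bd] at h
    exact exists_congr fun x => ih _ _ (cons_agree h)

end

/-- formulas as lists of numbers -/
def code : Fml → List ℕ
  | .mem i j => [0, i, j]
  | .eq i j => [1, i, j]
  | .neg a => 2 :: code a
  | .and a b => 3 :: (code a).length :: (code a ++ code b)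
  | .or a b => 4 :: (code a).length :: (code a ++ code b)
  | .imp a b => 5 :: (code a).length :: (code a ++ code b)
  | .iff a b => 6 :: (code a).length :: (code a ++ code b)
  | .all a => 7 :: code a
  | .ex a => 8 :: code a

theorem code_inj : Function.Injective code := by
  intro a
  induction a with
  | mem i j => intro b h; cases b <;> simp_all [code]
  | eq i j => intro b h; cases b <;> simp_all [code]
  | neg a ih =>
    intro b h
    cases b with
    | neg b => simp only [code, List.cons.injEq, true_and] at h; rw [ih h]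
    | _ => simp [code] at h
  | and a b iha ihb =>
    intro c h
    cases c <;> simp_all [code]
    obtain ⟨h1, h2⟩ := h
    obtain ⟨h3, h4⟩ := List.append_inj h2 h1
    exact ⟨iha h3, ihb h4⟩
  | or a b iha ihb =>
    intro c h
    cases c <;> simp_all [code]
    obtain ⟨h1, h2⟩ := h
    obtain ⟨h3, h4⟩ := List.append_inj h2 h1
    exact ⟨iha h3, ihb h4⟩
  | imp a b iha ihb =>
    intro c h
    cases c <;> simp_all [code]
    obtain ⟨h1, h2⟩ := h
    obtain ⟨h3, h4⟩ := List.append_inj h2 h1
    exact ⟨iha h3, ihb h4⟩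
  | iff a b iha ihb =>
    intro c h
    cases c <;> simp_all [code]
    obtain ⟨h1, h2⟩ := h
    obtain ⟨h3, h4⟩ := List.append_inj h2 h1
    exact ⟨iha h3, ihb h4⟩
  | all a ih =>
    intro b h
    cases b with
    | all b => simp only [code, List.cons.injEq, true_and] at h; rw [ih h]
    | _ => simp [code] at h
  | ex a ih =>
    intro b h
    cases b with
    | ex b => simp only [code, List.cons.injEq, true_and] at h; rw [ih h]
    | _ => simp [code] at h

instance : Countable Fml := code_inj.countable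

universe u

section

variable {M : Type u} (E : M → M → Prop) (m₀ : M)

/-- assignment given by a list -/
def lenv (l : List M) : ℕ → M := fun i => l.getD i m₀

open Classical in
/-- witness -/
noncomputable def wit (φ : Fml) (l : List M) : M :=
  if h : ∃ x, Sat E φ (cons x (lenv m₀ l)) then h.choose else m₀

/-- stages of the closure -/
def stg : ℕ → Set M
  | 0 => {m₀}
  | n + 1 => stg n ∪ Set.range fun p : Fml × List (stg n) => wit E m₀ p.1 (p.2.map Subtype.val)

theorem stg_mono (n : ℕ) : stg E m₀ n ⊆ stg E m₀ (n + 1) := Set.subset_union_left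

theorem stg_le {m n : ℕ} (h : m ≤ n) : stg E m₀ m ⊆ stg E m₀ n := by
  induction h with
  | refl => exact subset_rfl
  | step _ ih => exact ih.trans (stg_mono E m₀ _)

theorem stg_countable (n : ℕ) : (stg E m₀ n).Countable := by
  induction n with
  | zero => exact Set.countable_singleton m₀
  | succ n ih =>
    have : Countable (stg E m₀ n) := ih.to_subtype
    exact ih.union (Set.countable_range _)

/-- the elementary submodel -/
def hull : Set M := ⋃ n, stg E m₀ n

theorem hull_countable : (hull E m₀).Countable := Set.countable_iUnion (stg_countable E m₀)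

theorem exists_stg (l : List M) (h : ∀ x ∈ l, x ∈ hull E m₀) : ∃ n, ∀ x ∈ l, x ∈ stg E m₀ n := by
  induction l with
  | nil => exact ⟨0, by simp⟩
  | cons a l ih =>
    obtain ⟨n, hn⟩ := ih fun x hx => h x (List.mem_cons_of_mem a hx)
    obtain ⟨m, hm⟩ := Set.mem_iUnion.1 (h a List.mem_cons_self)
    refine ⟨max m n, fun x hx => ?_⟩
    rcases List.mem_cons.1 hx with rfl | hx
    · exact stg_le E m₀ (le_max_left m n) hm
    · exact stg_le E m₀ (le_max_right m n) (hn x hx)

theorem wit_mem (φ : Fml) (l : List M) (h : ∀ x ∈ l, x ∈ hull E m₀) : wit E m₀ φ l ∈ hull E m₀ := by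
  obtain ⟨n, hn⟩ := exists_stg E m₀ l h
  refine Set.mem_iUnion.2 ⟨n + 1, Or.inr ⟨(φ, l.attach.map fun x => ⟨x.1, hn x.1 x.2⟩), ?_⟩⟩
  dsimp only
  congr 1
  rw [List.map_map]
  exact List.attach_map_subtype_val l

theorem lenv_ofFn (v : ℕ → M) (n i : ℕ) (hi : i < n) :
    lenv m₀ (List.ofFn fun k : Fin n => v k) i = v i := by
  unfold lenv
  rw [List.getD_eq_getElem _ _ (by simpa using hi)]
  simp

theorem hull_witness (φ : Fml) (v : ℕ → M) (hv : ∀ i, v i ∈ hull E m₀)
    (h : ∃ x, Sat E φ (cons x v)) : ∃ x ∈ hull E m₀, Sat E φ (cons x v) := by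
  have key : ∀ x, Sat E φ (cons x v) ↔
      Sat E φ (cons x (lenv m₀ (List.ofFn fun k : Fin (bd φ) => v k))) := fun x =>
    sat_agree E φ _ _ fun i hi => by
      cases i with
      | zero => rfl
      | succ k => exact (lenv_ofFn m₀ v (bd φ) k (by omega)).symm
  have h' : ∃ x, Sat E φ (cons x (lenv m₀ (List.ofFn fun k : Fin (bd φ) => v k))) := by
    obtain ⟨x, hx⟩ := h
    exact ⟨x, (key x).1 hx⟩
  refine ⟨wit E m₀ φ (List.ofFn fun k : Fin (bd φ) => v k), wit_mem E m₀ _ _ ?_, ?_⟩
  · intro x hx
    obtain ⟨i, rfl⟩ := (List.mem_ofFn' _ _).1 hx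
    exact hv i
  · rw [key]
    unfold wit
    rw [dif_pos h']
    exact h'.choose_spec

theorem coe_cons {P : M → Prop} (x : {x // P x}) (v : ℕ → {x // P x}) :
    (fun i => (cons x v i).1) = cons x.1 fun i => (v i).1 := by
  funext i
  cases i <;> rfl

theorem hull_elementary (φ : Fml) (v : ℕ → {x // x ∈ hull E m₀}) :
    Sat (Rst E fun x => x ∈ hull E m₀) φ v ↔ Sat E φ fun i => (v i).1 := by
  induction φ generalizing v with
  | mem i j => rfl
  | eq i j => exact Subtype.ext_iff
  | neg a ih => simp only [Sat, ih]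
  | and a b iha ihb => simp only [Sat, iha, ihb]
  | or a b iha ihb => simp only [Sat, iha, ihb]
  | imp a b iha ihb => simp only [Sat, iha, ihb]
  | iff a b iha ihb => simp only [Sat, iha, ihb]
  | all a ih =>
    simp only [Sat, ih, coe_cons]
    constructor
    · intro h
      by_contra hc
      push Not at hc
      obtain ⟨x, hx, hx'⟩ := hull_witness E m₀ (.neg a) (fun i => (v i).1) (fun i => (v i).2) hc
      exact hx' (h ⟨x, hx⟩)
    · exact fun h x => h x.1
  | ex a ih =>
    simp only [Sat, ih, coe_cons]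
    constructor
    · rintro ⟨x, hx⟩
      exact ⟨x.1, hx⟩
    · intro h
      obtain ⟨x, hx, hx'⟩ := hull_witness E m₀ a (fun i => (v i).1) (fun i => (v i).2) h
      exact ⟨⟨x, hx⟩, hx'⟩

end

/-- transport along a bijection -/
theorem sat_equiv {M : Type*} {N : Type*} (E : M → M → Prop) (e : N ≃ M) (φ : Fml) (v : ℕ → N) :
    Sat (fun x y => E (e x) (e y)) φ v ↔ Sat E φ fun i => e (v i) := by
  have hc : ∀ (x : N) (v : ℕ → N), (fun i => e (cons x v i)) = cons (e x) fun i => e (v i) := by
    intro x v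
    funext i
    cases i <;> rfl
  induction φ generalizing v with
  | mem i j => rfl
  | eq i j => exact e.injective.eq_iff.symm
  | neg a ih => simp only [Sat, ih]
  | and a b iha ihb => simp only [Sat, iha, ihb]
  | or a b iha ihb => simp only [Sat, iha, ihb]
  | imp a b iha ihb => simp only [Sat, iha, ihb]
  | iff a b iha ihb => simp only [Sat, iha, ihb]
  | all a ih =>
    simp only [Sat, ih, hc]
    exact ⟨fun h x => by simpa using h (e.symm x), fun h x => h (e x)⟩
  | ex a ih =>
    simp only [Sat, ih, hc]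
    exact ⟨fun ⟨x, hx⟩ => ⟨e x, hx⟩, fun ⟨x, hx⟩ => ⟨e.symm x, by simpa using hx⟩⟩

/-- **Löwenheim-Skolem**: every nonempty structure has a countable elementary substructure (here in
`Type`, with an embedding). -/
theorem exists_countable {M : Type u} (E : M → M → Prop) [Nonempty M] :
    ∃ (N : Type) (_ : Countable N) (_ : Nonempty N) (E' : N → N → Prop) (f : N → M),
      ∀ (φ : Fml) (v : ℕ → N), Sat E' φ v ↔ Sat E φ fun i => f (v i) := by
  obtain ⟨m₀⟩ := ‹Nonempty M›
  have hc := (hull_countable E m₀).to_subtype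
  obtain ⟨g, hg⟩ := exists_injective_nat (hull E m₀)
  let e : Set.range g ≃ hull E m₀ := (Equiv.ofInjective g hg).symm
  have hm : m₀ ∈ hull E m₀ := Set.mem_iUnion.2 ⟨0, rfl⟩
  refine ⟨Set.range g, inferInstance, ⟨e.symm ⟨m₀, hm⟩⟩, fun x y => E (e x).1 (e y).1,
    fun x => (e x).1, fun φ v => ?_⟩
  have h1 := sat_equiv (Rst E fun x => x ∈ hull E m₀) e φ v
  rw [hull_elementary] at h1
  exact h1

/-! ### ZFC and elementary substructures -/

/-- the sentence of extensionality etc. -/
def axExt : Fml := .all (.all (.imp (.all (.iff (.mem 0 2) (.mem 0 1))) (.eq 1 0)))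

/-- foundation -/
def axFound : Fml := .all (.imp (.ex (.mem 0 1)) (.ex (.and (.mem 0 1)
  (.all (.imp (.mem 0 1) (.neg (.mem 0 2)))))))

/-- pairing -/
def axPair : Fml := .all (.all (.ex (.all (.iff (.mem 0 1) (.or (.eq 0 3) (.eq 0 2))))))

/-- union -/
def axUnion : Fml := .all (.ex (.all (.iff (.mem 0 1) (.ex (.and (.mem 0 3) (.mem 1 0))))))

/-- power set -/
def axPower : Fml := .all (.ex (.all (.iff (.mem 0 1) (.all (.imp (.mem 0 1) (.mem 0 3))))))

/-- infinity -/
def axInf : Fml := .ex (.and (.ex (.and (.mem 0 1) (.all (.neg (.mem 0 1)))))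
  (.all (.imp (.mem 0 1) (.ex (.and (.mem 0 2) (.all (.iff (.mem 0 1)
    (.or (.mem 0 2) (.eq 0 2)))))))))

/-- choice -/
def axChoice : Fml := .all (.imp (.all (.imp (.mem 0 1) (.ex (.mem 0 1))))
  (.imp (.all (.all (.all (.imp (.mem 2 3) (.imp (.mem 1 3) (.imp (.mem 0 2) (.imp (.mem 0 1)
    (.eq 2 1))))))))
    (.ex (.all (.imp (.mem 0 2) (.ex (.and (.and (.mem 0 1) (.mem 0 2))
      (.all (.imp (.and (.mem 0 2) (.mem 0 3)) (.eq 0 1))))))))))

/-- separation; the set is variable `0` -/
def axSep (φ : Fml) : Fml := .ex (.all (.iff (.mem 0 1) (.and (.mem 0 2)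
  (rnF (fun i => if i = 0 then 0 else i + 2) φ))))

/-- replacement; the set is variable `0` -/
def axRepl (φ : Fml) : Fml := .imp (.all (.imp (.mem 0 1) (.ex (.and
  (rnF (fun i => if i ≤ 1 then i else i + 1) φ)
  (.all (.imp (rnF (fun i => if i = 0 then 0 else if i = 1 then 2 else i + 2) φ) (.eq 0 1)))))))
  (.ex (.all (.iff (.mem 0 1) (.ex (.and (.mem 0 3)
    (rnF (fun i => if i = 0 then 1 else if i = 1 then 0 else i + 2) φ))))))

theorem sat_axSep {M : Type*} (E : M → M → Prop) (φ : Fml) (v : ℕ → M) (x : M) :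
    Sat E (axSep φ) (cons x v) ↔ ∃ y, ∀ z, E z y ↔ (E z x ∧ Sat E φ (cons z v)) := by
  refine exists_congr fun y => forall_congr' fun z => iff_congr Iff.rfl (and_congr Iff.rfl ?_)
  rw [sat_rnF]
  refine iff_of_eq ?_
  congr 1
  funext i
  cases i <;> rfl

theorem sat_axRepl {M : Type*} (E : M → M → Prop) (φ : Fml) (v : ℕ → M) (x : M) :
    Sat E (axRepl φ) (cons x v) ↔ ((∀ a, E a x → ∃! b, Sat E φ (cons b (cons a v))) →
    ∃ y, ∀ b, E b y ↔ ∃ a, E a x ∧ Sat E φ (cons b (cons a v))) := by
  refine imp_congr (forall_congr' fun a => imp_congr Iff.rfl (exists_congr fun b =>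
    and_congr ?_ (forall_congr' fun b' => imp_congr ?_ Iff.rfl)))
    (exists_congr fun y => forall_congr' fun b => iff_congr Iff.rfl (exists_congr fun a =>
      and_congr Iff.rfl ?_))
  · rw [sat_rnF]
    refine iff_of_eq ?_
    congr 1
    funext i
    rcases i with _ | _ | i <;> rfl
  · rw [sat_rnF]
    refine iff_of_eq ?_
    congr 1
    funext i
    rcases i with _ | _ | i <;> rfl
  · rw [sat_rnF]
    refine iff_of_eq ?_
    congr 1
    funext i
    rcases i with _ | _ | i <;> rfl

theorem zfc_of_elementary {M : Type*} {N : Type*} {E : M → M → Prop} {E' : N → N → Prop}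
    (f : N → M) (h : ∀ (φ : Fml) (v : ℕ → N), Sat E' φ v ↔ Sat E φ fun i => f (v i))
    (hN : Nonempty N) (hz : ZFC E) : ZFC E' := by
  obtain ⟨n₀⟩ := hN
  have hc : ∀ (x : N) (v : ℕ → N), (fun i => f (cons x v i)) = cons (f x) fun i => f (v i) := by
    intro x v
    funext i
    cases i <;> rfl
  constructor
  · exact (h axExt fun _ => n₀).2 hz.ext
  · exact (h axFound fun _ => n₀).2 hz.found
  · exact (h axPair fun _ => n₀).2 hz.pair
  · exact (h axUnion fun _ => n₀).2 hz.union
  · exact (h axPower fun _ => n₀).2 hz.power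
  · exact (h axInf fun _ => n₀).2 hz.infinity
  · intro φ v x
    rw [← sat_axSep, h, hc, sat_axSep]
    exact hz.sep φ _ _
  · intro φ v x
    rw [← sat_axRepl, h, hc, sat_axRepl]
    exact hz.repl φ _ _
  · exact (h axChoice fun _ => n₀).2 hz.choice

/-- a countable model of ZFC with a supercompact cardinal -/
theorem exists_countable_supercompact {M : Type u} {E : M → M → Prop} (hz : ZFC E)
    (hs : ∃ κ, Supercompact E κ) : ∃ (N : Type) (_ : Countable N) (E' : N → N → Prop),
      ZFC E' ∧ ∃ κ, Supercompact E' κ := by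
  obtain ⟨κ, hκ⟩ := hs
  have : Nonempty M := ⟨κ⟩
  obtain ⟨N, hN, ⟨n₀⟩, E', f, hf⟩ := exists_countable E
  refine ⟨N, hN, E', zfc_of_elementary f hf ⟨n₀⟩ hz, ?_⟩
  have h1 : Sat E' (.ex (fSupercompact 0)) fun _ => n₀ :=
    (hf (.ex (fSupercompact 0)) fun _ => n₀).2 ⟨κ, (sat_fSupercompact E _ 0).2 hκ⟩
  obtain ⟨x, hx⟩ := h1
  exact ⟨x, (sat_fSupercompact E' _ 0).1 hx⟩

end Pool.Agent.SCC
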