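import Pool.Agent.SCC.Fin1
import Pool.Agent.SCC.LS
import Pool.Agent.SC.ReflC
import Pool.Agent.SC.Cls
import Pool.Agent.LP.VF

/-!
# The final assembly, from the lemma about many collapses at bit 1 stages
-/

set_option synthInstance.maxSize 100000

namespace Pool.Agent.SCC

open Pool.Agent.BVM Pool.Agent.IST

/-- the lemma `P5` for all countable models -/
def AllP5 : Prop := ∀ (M : Type) [SetModel M] [Countable M] [GCh M] [BitC M] (G : Gen (IT M))
  (A : IM G.Ext), A.Same → P5 G A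

theorem exists_good {M : Type} [S : SetModel M] [Countable M] (h5 : AllP5) {κ : M}
    (hκ : IsSC κ) : ∃ (M' : Type) (E' : M' → M' → Prop), Good M' E' := by
  obtain ⟨B, hB⟩ := exists_h64 hκ.1 hκ.2.1 hκ.2.2
  obtain ⟨U', hU, bc, hG, hC, hb⟩ := exists_bitC κ B
  have h64 := hB U' hU bc fun z hz _ => hb z hz
  have hord : @IsOrd M ⟨S.E, U', hU⟩ κ := hκ.1.isOrd
  have hom : S.E (@om M ⟨S.E, U', hU⟩) κ := hκ.2.1
  let S' : SetModel M := ⟨S.E, U', hU⟩
  let _ := bc
  have _ := hG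
  obtain ⟨G, -⟩ := Gen.exists_gen (IT M) (IT M).cd_one
  exact ⟨G.Ext, SetModel.E, good_lpo G hord hom (H64.mainS h64) G.vfacts hC
    fun A hA => h5 M G A hA⟩

universe u

theorem main (h5 : AllP5) {M : Type u} (E : M → M → Prop) (hE : ZFC E)
    (hs : ∃ κ, Supercompact E κ) :
    ∃ (M' : Type) (E' : M' → M' → Prop), ZFC E' ∧ (∃ κ, Supercompact E' κ) ∧
      ∀ N, InnerModel E' N → SameCard E' N → ∀ x, N x := by
  obtain ⟨M₁, hc, E₁, h1, κ₁, h2⟩ := exists_countable_supercompact hE hs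
  let _ : SetModel M₁ := ⟨E₁, fun _ => False, h1.zfcU⟩
  exact exists_good h5 (supercompact_iff.1 h2)

end Pool.Agent.SCC
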