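import Pool.Agent.SCC.Fin2
import Pool.Agent.LP.Bit1
import Pool.Agent.LP.Hmg

/-!
# The lemma about many collapses at bit 1 stages for inner models, and the theorem
-/

set_option synthInstance.maxSize 100000

namespace Pool.Agent.SCC

open Pool.Agent.BVM Pool.Agent.IST

theorem allP5 : AllP5 := by
  intro M _ _ _ _ G A hA
  have hQ : Dfp fun γ : ((E0 G.Ext × G.Ext) × G.Ext) × G.Ext =>
      A.N γ.1.1.2 ∧ Bij γ.1.1.2 γ.1.2 γ.2 := inferInstance
  obtain ⟨k, hk, h⟩ := G.copies hmg (fun f a b => A.N f ∧ Bij f a b) hQ fun f a b h => h.2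
  refine ⟨k, hk, fun l hl hkl hb S hS => ?_⟩
  have hi : IsOrd (sc l) := hl.isOrd.sc
  have hki : k ⊆ sc l := hi.sub_of_mem (sub_sc l k hkl)
  have hP : Leq (CP (sc l)) (alp (sc l)) :=
    leq_of_card_mem (isOrd_alp hi) (card_CP_sc hl.isOrd)
  exact h (sc l) hi hki hP hb (IM.exists_collapse hA G.vfacts hi) S
    fun g hg => hS g hg.1 hg.2.maps

universe u

/-- **Main theorem**: if ZFC with a supercompact cardinal has a model, then ZFC with a supercompact
cardinal has a model in which every inner model with the same cardinals is the whole model -/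
theorem exists_noProper {M : Type u} (E : M → M → Prop) (hE : ZFC E)
    (hs : ∃ κ, Supercompact E κ) :
    ∃ (M' : Type) (E' : M' → M' → Prop), ZFC E' ∧ (∃ κ, Supercompact E' κ) ∧
      ∀ N, InnerModel E' N → SameCard E' N → ∀ x, N x := main allP5 E hE hs

end Pool.Agent.SCC
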