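import Pool.Agent.SCC.Bridge
import Pool.Agent.LP.Emb
import Pool.Agent.LP.Basic

/-!
# Inner models as models with the internal library
-/

set_option synthInstance.maxSize 100000

namespace Pool.Agent.SCC

open Pool.Agent.BVM Pool.Agent.IST

/-- inner models of `V` -/
structure IM (V : Type) [SetModel V] where
  /-- the class -/
  N : V → Prop
  /-- it is an inner model -/
  inner : InnerModel SetModel.E N

namespace IM

section

variable {V : Type} [SetModel V] (A : IM V)

/-- the type of the elements of the inner model -/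
def Ty : Type := {x // A.N x}

instance : SetModel A.Ty := ⟨Rst SetModel.E A.N, fun _ => False, A.inner.zfc.zfcU⟩

/-- the inclusion -/
def val (x : A.Ty) : V := x.1

theorem val_mem (x : A.Ty) : A.N (A.val x) := x.2

theorem exists_val {x : V} (h : A.N x) : ∃ y : A.Ty, A.val y = x := ⟨⟨x, h⟩, rfl⟩

theorem temb : TEmb A.val where
  inj h := Subtype.ext h
  mem := Iff.rfl
  tr {x b} h := ⟨⟨b, A.inner.trans b x.1 x.2 h⟩, h, rfl⟩
  ord {b} h := ⟨⟨b, A.inner.ord b (ordl_iff.2 h)⟩, rfl⟩

theorem dfp1 : Dfp fun γ : E0 V × V => A.N γ.2 := by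
  obtain ⟨φ, v, h⟩ := A.inner.dfn
  refine ⟨upU φ, fun i γ => cons γ.2 v i, fun i => ?_, fun γ => ?_⟩
  · cases i with
    | zero => exact simple_snd
    | succ i => exact simple_fst (IsCtx.const _)
  · rw [satU_upU, h]

instance dfp {Γ : Type} [IsCtx Γ V] {f : Γ → V} [Dff f] : Dfp fun γ => A.N (f γ) :=
  Dfp.use1 A.dfp1

theorem of_sub_mem {x y : V} (hy : A.N y) (h : x ∈ y) : A.N x := A.inner.trans x y hy h

theorem of_ord {x : V} (h : IsOrd x) : A.N x := A.inner.ord x (ordl_iff.2 h)

/-- every cardinal of the inner model is a cardinal -/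
def Same : Prop := SameCard SetModel.E A.N

variable {A}

theorem isCard_val (h : A.Same) {x : A.Ty} : IsCard (A.val x) ↔ IsCard x := by
  constructor
  · exact A.temb.isCard_of
  · intro hx
    exact cardl_iff.1 (h x ((cardl_iff (M := A.Ty)).2 hx))

theorem isOrd_val {x : A.Ty} : IsOrd (A.val x) ↔ IsOrd x := A.temb.isOrd

theorem infCard_val (h : A.Same) {x : A.Ty} : InfCard (A.val x) ↔ InfCard x := by
  unfold InfCard
  rw [isCard_val h, ← A.temb.om, A.temb.sub]

theorem val_card (h : A.Same) {x : A.Ty} : A.val (card x) = card (A.val x) :=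
  (card_eq_of ((isCard_val h).2 (isCard_card x)) (A.temb.eqn (eqn_card x))).symm

theorem val_scard (h : A.Same) {x : A.Ty} (hx : IsOrd x) : A.val (scard x) = scard (A.val x) := by
  have h1 := (isCard_val h).2 (isCard_scard hx)
  have h2 : A.val x ∈ A.val (scard x) := A.temb.mem.2 (mem_scard_self hx)
  have hx' := isOrd_val.2 hx
  apply Sub.antisymm _ (scard_sub hx' h1 h2)
  obtain ⟨c, hc, e⟩ := A.temb.exists_of_ord (isCard_scard hx').isOrd
  have hc' : IsCard c := (isCard_val h).1 (e ▸ isCard_scard hx')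
  rw [e, A.temb.sub]
  refine scard_sub hx hc' ?_
  have := mem_scard_self hx'
  rwa [e, A.temb.mem] at this

theorem val_pw_sub {x : A.Ty} : A.val (pw x) ⊆ pw (A.val x) := by
  intro y hy
  obtain ⟨z, hz, rfl⟩ := A.temb.tr hy
  rw [mem_pw] at hz ⊢
  exact A.temb.sub.2 hz

theorem val_pow2_sub (h : A.Same) {x : A.Ty} : A.val (pow2 x) ⊆ pow2 (A.val x) := by
  unfold pow2
  rw [val_card h]
  exact card_mono val_pw_sub

theorem leq_val (h : A.Same) {x y : A.Ty} : Leq (A.val x) (A.val y) ↔ Leq x y := by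
  rw [← card_sub_iff, ← card_sub_iff, ← val_card h, ← val_card h, A.temb.sub]

theorem eqn_val (h : A.Same) {x y : A.Ty} : Eqn (A.val x) (A.val y) ↔ Eqn x y := by
  rw [← card_eq_iff, ← card_eq_iff, ← val_card h, ← val_card h]
  exact ⟨A.temb.inj, fun e => by rw [e]⟩

end

end IM

end Pool.Agent.SCC
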