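import Pool.Agent.SCC.Fin1
import Pool.Agent.LP.Bit1
import Pool.Agent.LP.VF
import Pool.Agent.LP.Hmg

/-!
# BP3.3 for inner models
-/

set_option synthInstance.maxSize 100000

namespace Pool.Agent.SCC

open Pool.Agent.BVM Pool.Agent.IST

/-- BP3.3, from the homogeneity of the iteration -/
theorem p5_of_hmg {M : Type} [SetModel M] [GCh M] [BitC M] (H : (IT M).Hmg) (G : Gen (IT M))
    (A : IM G.Ext) (hA : A.Same) : P5 G A := by
  obtain ⟨k, hk, h⟩ := G.copies H (fun f a b => A.N f ∧ Bij f a b) inferInstance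
    fun f a b h => h.2
  refine ⟨k, hk, fun l hl hkl hb S hS => ?_⟩
  have hi := hl.1.sc
  refine h (sc l) hi (Sub.trans (hl.1.sub_of_mem hkl) (sub_sc l)) ?_ hb ?_ S
    fun g hg => hS g hg.1 hg.2.maps
  · exact leq_of_card_mem (isOrd_alp hi) (card_CP_sc hl.1)
  · exact IM.exists_collapse hA G.vfacts hi

/-- BP3.3 for inner models -/
theorem p5 {M : Type} [SetModel M] [GCh M] [BitC M] (G : Gen (IT M)) (A : IM G.Ext)
    (hA : A.Same) : P5 G A := p5_of_hmg hmg G A hA

end Pool.Agent.SCC
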